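import Pool.Agent.H86.LP.BDD

set_option autoImplicit false

open MeasureTheory ProbabilityTheory Filter Topology
open scoped ENNReal NNReal
open Pool.Agent.H62.LP

namespace Pool.Agent.H86.LP

/-- The window as a finite set. -/
noncomputable def winF (ρ : ℕ) (y : Vt 2) : Finset (Vt 2) :=
  Fintype.piFinset fun i => Finset.Icc ((ρ : ℤ) * y i - 2 * ρ) (ρ * y i + 2 * ρ)

lemma mem_winF (ρ : ℕ) (x y : Vt 2) : x ∈ winF ρ y ↔ nm (x - sc ρ y) ≤ 2 * ρ := by
  rw [nm2_abs, winF, Fintype.mem_piFinset]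
  refine forall_congr' fun i => ?_
  rw [Finset.mem_Icc, Pi.sub_apply, sc, abs_le]
  push_cast
  constructor <;> intro h <;> constructor <;> linarith [h.1, h.2]

lemma card_winF (ρ : ℕ) (y : Vt 2) : (winF ρ y).card = (4 * ρ + 1) ^ 2 := by
  rw [winF, Fintype.card_piFinset]
  have h : ∀ i : Fin 2, (Finset.Icc ((ρ : ℤ) * y i - 2 * ρ) (ρ * y i + 2 * ρ)).card =
      4 * ρ + 1 := by
    intro i
    rw [Int.card_Icc]
    omega
  rw [Finset.prod_congr rfl (fun i _ => h i)]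
  simp

lemma up_scale (ρ k : ℕ) (hρ : 3 ≤ ρ) (u x y : Vt 2) (h1 : nm (u - sc (ρ ^ k) x) ≤ 3 * ρ ^ k)
    (h2 : nm (x - sc ρ y) ≤ 2 * ρ) : nm (u - sc (ρ ^ (k + 1)) y) ≤ 3 * ρ ^ (k + 1) := by
  rw [nm2_abs] at h1 h2 ⊢
  intro i
  have e3 := h2 i
  have e6 := h1 i
  simp only [Pi.sub_apply, sc] at e3 e6 ⊢
  push_cast at e3 e6 ⊢
  have hpk : (0 : ℤ) < (ρ : ℤ) ^ k := by positivity
  have hρ3 : (3 : ℤ) ≤ ρ := by exact_mod_cast hρ
  have e7 : u i - (ρ : ℤ) ^ (k + 1) * y i =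
      (u i - (ρ : ℤ) ^ k * x i) + (ρ : ℤ) ^ k * (x i - ρ * y i) := by ring
  rw [e7]
  refine (abs_add_le _ _).trans ?_
  rw [abs_mul, abs_of_pos hpk]
  have e8 : (ρ : ℤ) ^ k * |x i - ρ * y i| ≤ (ρ : ℤ) ^ k * (2 * ρ) :=
    mul_le_mul_of_nonneg_left e3 hpk.le
  calc |u i - (ρ : ℤ) ^ k * x i| + (ρ : ℤ) ^ k * |x i - ρ * y i|
      ≤ 3 * (ρ : ℤ) ^ k + (ρ : ℤ) ^ k * (2 * ρ) := add_le_add e6 e8
    _ ≤ ρ * (ρ : ℤ) ^ k + (ρ : ℤ) ^ k * (2 * ρ) := by
        have := mul_le_mul_of_nonneg_right hρ3 hpk.le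
        linarith
    _ = 3 * (ρ : ℤ) ^ (k + 1) := by ring

lemma far_apart (ρ k D K₁ : ℕ) (hρ : 3 ≤ ρ) (hD : K₁ + 6 ≤ D) (u v x₁ x₂ : Vt 2)
    (h1 : nm (u - sc (ρ ^ k) x₁) ≤ 3 * ρ ^ k) (h2 : nm (v - sc (ρ ^ k) x₂) ≤ 3 * ρ ^ k)
    (h3 : D < nm (x₁ - x₂)) : K₁ < nm (u - v) := by
  have h4 : ∃ i, (D : ℤ) + 1 ≤ |x₁ i - x₂ i| := by
    by_contra hcon
    push Not at hcon
    have h5 : nm (x₁ - x₂) ≤ D := by
      rw [nm2_abs]
      intro i
      have := hcon i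
      rw [Pi.sub_apply]
      linarith
    omega
  obtain ⟨i, hi⟩ := h4
  by_contra hcon
  push Not at hcon
  rw [nm2_abs] at h1 h2 hcon
  have e1 := h1 i
  have e2 := h2 i
  have e3 := hcon i
  simp only [Pi.sub_apply, sc] at e1 e2 e3
  push_cast at e1 e2
  have hpk : (1 : ℤ) ≤ (ρ : ℤ) ^ k := one_le_pow₀ (by exact_mod_cast (by omega : 1 ≤ ρ))
  have e4 : (ρ : ℤ) ^ k * (x₁ i - x₂ i) =
      - (u i - (ρ : ℤ) ^ k * x₁ i) + (v i - (ρ : ℤ) ^ k * x₂ i) + (u i - v i) := by ring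
  have e5 : |(ρ : ℤ) ^ k * (x₁ i - x₂ i)| ≤ 3 * (ρ : ℤ) ^ k + 3 * (ρ : ℤ) ^ k + K₁ := by
    rw [e4]
    refine (abs_add_le _ _).trans ?_
    refine add_le_add ((abs_add_le _ _).trans ?_) e3
    rw [abs_neg]
    exact add_le_add e1 e2
  rw [abs_mul, abs_of_pos (by linarith)] at e5
  have e6 : (ρ : ℤ) ^ k * ((D : ℤ) + 1) ≤ (ρ : ℤ) ^ k * |x₁ i - x₂ i| :=
    mul_le_mul_of_nonneg_left hi (by linarith)
  have hD' : (K₁ : ℤ) + 6 ≤ D := by exact_mod_cast hD
  have e7 : (ρ : ℤ) ^ k * ((K₁ : ℤ) + 7) ≤ (ρ : ℤ) ^ k * ((D : ℤ) + 1) :=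
    mul_le_mul_of_nonneg_left (by linarith) (by linarith)
  have e8 : (1 : ℤ) * ((K₁ : ℤ) + 1) ≤ (ρ : ℤ) ^ k * ((K₁ : ℤ) + 1) :=
    mul_le_mul_of_nonneg_right hpk (by positivity)
  nlinarith

theorem pf_BDC : T_BDC := by
  classical
  intro ρ D K₁ hρ hD k
  induction k with
  | zero =>
    intro y
    refine ⟨{{y}}, by simp, ?_, ?_⟩
    · intro Y hY
      rw [Finset.mem_singleton] at hY
      subst hY
      refine ⟨by simp, ?_, ?_⟩
      · intro u hu v hv hne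
        rw [Finset.mem_singleton] at hu hv
        exact absurd (hu.trans hv.symm) hne
      · intro u hu
        rw [Finset.mem_singleton] at hu
        rw [hu, nm2_abs]
        intro i
        simp [sc]
    · intro B hy
      refine ⟨{y}, by simp, ?_⟩
      rw [Finset.coe_singleton, Set.singleton_subset_iff]
      exact hy
  | succ k ih =>
    choose F hF1 hF2 hF3 using ih
    intro y
    set 𝓕 : Finset (Finset (Vt 2)) :=
      ((winF ρ y ×ˢ winF ρ y).filter (fun p => D < nm (p.1 - p.2))).biUnion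
        (fun p => (F p.1 ×ˢ F p.2).image (fun q => q.1 ∪ q.2)) with h𝓕
    refine ⟨𝓕, ?_, ?_, ?_⟩
    · have h1 : 𝓕.card ≤ (winF ρ y ×ˢ winF ρ y).card *
          ((4 * ρ + 1) ^ (4 * (2 ^ k - 1)) * (4 * ρ + 1) ^ (4 * (2 ^ k - 1))) := by
        refine (Finset.card_biUnion_le_card_mul _ _ _ ?_).trans
          (Nat.mul_le_mul_right _ (Finset.card_filter_le _ _))
        intro p _
        refine Finset.card_image_le.trans ?_
        rw [Finset.card_product]
        exact Nat.mul_le_mul (hF1 _) (hF1 _)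
      refine h1.trans (le_of_eq ?_)
      rw [Finset.card_product, card_winF, ← pow_add, ← pow_add, ← pow_add]
      congr 1
      have h2 : 1 ≤ 2 ^ k := Nat.one_le_two_pow
      rw [pow_succ]
      omega
    · intro Y hY
      rw [h𝓕, Finset.mem_biUnion] at hY
      obtain ⟨p, hp, hY⟩ := hY
      rw [Finset.mem_filter, Finset.mem_product, mem_winF, mem_winF] at hp
      obtain ⟨⟨hp1, hp2⟩, hpD⟩ := hp
      rw [Finset.mem_image] at hY
      obtain ⟨q, hq, rfl⟩ := hY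
      rw [Finset.mem_product] at hq
      obtain ⟨a1, a2, a3⟩ := hF2 p.1 q.1 hq.1
      obtain ⟨b1, b2, b3⟩ := hF2 p.2 q.2 hq.2
      have hfar : ∀ u ∈ q.1, ∀ v ∈ q.2, K₁ < nm (u - v) := fun u hu v hv =>
        far_apart ρ k D K₁ hρ hD u v p.1 p.2 (a3 u hu) (b3 v hv) hpD
      have hsym : ∀ u v : Vt 2, nm (u - v) = nm (v - u) := by
        intro u v
        apply le_antisymm
        · have h := (nm2_le (v - u) _).1 le_rfl
          rw [nm2_le]
          simp only [Pi.sub_apply] at h ⊢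
          omega
        · have h := (nm2_le (u - v) _).1 le_rfl
          rw [nm2_le]
          simp only [Pi.sub_apply] at h ⊢
          omega
      have hdis : Disjoint q.1 q.2 := by
        rw [Finset.disjoint_left]
        intro u hu hu'
        have h := hfar u hu u hu'
        rw [sub_self] at h
        have h0 : nm (0 : Vt 2) ≤ 0 := by rw [nm2_le]; simp
        omega
      refine ⟨?_, ?_, ?_⟩
      · rw [Finset.card_union_of_disjoint hdis, a1, b1, pow_succ]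
        ring
      · intro u hu v hv hne
        rcases Finset.mem_union.1 hu with hu | hu <;> rcases Finset.mem_union.1 hv with hv | hv
        · exact a2 u hu v hv hne
        · exact hfar u hu v hv
        · rw [hsym]
          exact hfar v hv u hu
        · exact b2 u hu v hv hne
      · intro u hu
        rcases Finset.mem_union.1 hu with hu | hu
        · exact up_scale ρ k hρ u p.1 y (a3 u hu) hp1
        · exact up_scale ρ k hρ u p.2 y (b3 u hu) hp2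
    · intro B hy
      obtain ⟨x₁, x₂, h1, h2, h3, h4, h5⟩ := hy
      obtain ⟨Y1, hY1, hY1B⟩ := hF3 x₁ B h4
      obtain ⟨Y2, hY2, hY2B⟩ := hF3 x₂ B h5
      refine ⟨Y1 ∪ Y2, ?_, ?_⟩
      · rw [h𝓕, Finset.mem_biUnion]
        refine ⟨(x₁, x₂), ?_, ?_⟩
        · rw [Finset.mem_filter, Finset.mem_product, mem_winF, mem_winF]
          exact ⟨⟨h1, h2⟩, h3⟩
        · rw [Finset.mem_image]
          exact ⟨(Y1, Y2), by rw [Finset.mem_product]; exact ⟨hY1, hY2⟩, rfl⟩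
      · rw [Finset.coe_union]
        exact Set.union_subset hY1B hY2B

end Pool.Agent.H86.LP
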