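import Pool.Agent.H62.LP.T3

set_option autoImplicit false

open MeasureTheory ProbabilityTheory Filter Topology
open scoped ENNReal NNReal
open Pool.Agent.H62.LP

namespace Pool.Agent.H86.LP

lemma nm2_le (x : Vt 2) (n : ℕ) : nm x ≤ n ↔ (x 0).natAbs ≤ n ∧ (x 1).natAbs ≤ n := by
  unfold nm
  rw [Finset.sup_le_iff]
  constructor
  · intro h
    exact ⟨h 0 (Finset.mem_univ _), h 1 (Finset.mem_univ _)⟩
  · rintro ⟨h0, h1⟩ i _
    fin_cases i
    · exact h0
    · exact h1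

lemma nm2_lt (x : Vt 2) (n : ℕ) : n < nm x ↔ n < (x 0).natAbs ∨ n < (x 1).natAbs := by
  have h := nm2_le x n
  omega

/-- Moves along a line. -/
lemma line_conn (E : Vt 2 → Vt 2 → Prop) (hr : ∀ x, E x x) (hs : ∀ x y, E x y → E y x)
    (ht : ∀ x y z, E x y → E y z → E x z) (f : ℤ → Vt 2) (lo hi : ℤ)
    (h : ∀ s, lo ≤ s → s + 1 ≤ hi → E (f s) (f (s + 1))) :
    ∀ s s', lo ≤ s → s ≤ hi → lo ≤ s' → s' ≤ hi → E (f s) (f s') := by
  have key : ∀ s, lo ≤ s → ∀ n : ℕ, s + n ≤ hi → E (f s) (f (s + n)) := by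
    intro s hs1 n
    induction n with
    | zero =>
      intro _
      simp only [Nat.cast_zero, add_zero]
      exact hr _
    | succ n ih =>
      intro h2
      push_cast at h2 ⊢
      have h3 := ih (by omega)
      have h4 := h (s + n) (by omega) (by omega)
      rw [add_assoc] at h4
      exact ht _ _ _ h3 h4
  intro s s' h1 h2 h3 h4
  rcases le_total s s' with h5 | h5
  · have h6 := key s h1 (s' - s).toNat (by omega)
    have h7 : s + ((s' - s).toNat : ℤ) = s' := by omega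
    rwa [h7] at h6
  · have h6 := key s' h3 (s - s').toNat (by omega)
    have h7 : s' + ((s - s').toNat : ℤ) = s := by omega
    rw [h7] at h6
    exact hs _ _ h6

/-- A window without a small ball is connected. -/
lemma win_conn (E : Vt 2 → Vt 2 → Prop) (hr : ∀ x, E x x) (hs : ∀ x y, E x y → E y x)
    (ht : ∀ x y z, E x y → E y z → E x z) (c b : Vt 2) (ρ D : ℕ) (hD : D + 1 ≤ ρ)
    (hE : ∀ u v, nm (u - c) ≤ 2 * ρ → nm (v - c) ≤ 2 * ρ → D < nm (u - b) → D < nm (v - b) →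
      nm (u - v) ≤ 1 → E u v) :
    ∀ x x', nm (x - c) ≤ 2 * ρ → nm (x' - c) ≤ 2 * ρ → D < nm (x - b) → D < nm (x' - b) →
      E x x' := by
  simp only [nm2_le, nm2_lt, Pi.sub_apply] at hE ⊢
  -- free lines
  have hcol : ∀ s : ℤ, (s - c 0).natAbs ≤ 2 * ρ → D < (s - b 0).natAbs → ∀ r r' : ℤ,
      (r - c 1).natAbs ≤ 2 * ρ → (r' - c 1).natAbs ≤ 2 * ρ → E ![s, r] ![s, r'] := by
    intro s h1 h2 r r' h3 h4
    have h5 := line_conn E hr hs ht (fun r => ![s, r]) (c 1 - 2 * ρ) (c 1 + 2 * ρ) (by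
      intro r hr1 hr2
      apply hE
      · simp only [Matrix.cons_val_zero, Matrix.cons_val_one]
        omega
      · simp only [Matrix.cons_val_zero, Matrix.cons_val_one]
        omega
      · simp only [Matrix.cons_val_zero, Matrix.cons_val_one]
        omega
      · simp only [Matrix.cons_val_zero, Matrix.cons_val_one]
        omega
      · simp only [Matrix.cons_val_zero, Matrix.cons_val_one]
        omega)
    exact h5 r r' (by omega) (by omega) (by omega) (by omega)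
  have hrow : ∀ r : ℤ, (r - c 1).natAbs ≤ 2 * ρ → D < (r - b 1).natAbs → ∀ s s' : ℤ,
      (s - c 0).natAbs ≤ 2 * ρ → (s' - c 0).natAbs ≤ 2 * ρ → E ![s, r] ![s', r] := by
    intro r h1 h2 s s' h3 h4
    have h5 := line_conn E hr hs ht (fun s => ![s, r]) (c 0 - 2 * ρ) (c 0 + 2 * ρ) (by
      intro s hr1 hr2
      apply hE
      · simp only [Matrix.cons_val_zero, Matrix.cons_val_one]
        omega
      · simp only [Matrix.cons_val_zero, Matrix.cons_val_one]
        omega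
      · simp only [Matrix.cons_val_zero, Matrix.cons_val_one]
        omega
      · simp only [Matrix.cons_val_zero, Matrix.cons_val_one]
        omega
      · simp only [Matrix.cons_val_zero, Matrix.cons_val_one]
        omega)
    exact h5 s s' (by omega) (by omega) (by omega) (by omega)
  obtain ⟨s0, hs0, hs0'⟩ : ∃ s0 : ℤ, (s0 - c 0).natAbs ≤ 2 * ρ ∧ D < (s0 - b 0).natAbs := by
    by_cases h : D < (c 0 - 2 * ρ - b 0).natAbs
    · exact ⟨c 0 - 2 * ρ, by omega, h⟩
    · exact ⟨c 0 + 2 * ρ, by omega, by omega⟩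
  obtain ⟨r0, hr0, hr0'⟩ : ∃ r0 : ℤ, (r0 - c 1).natAbs ≤ 2 * ρ ∧ D < (r0 - b 1).natAbs := by
    by_cases h : D < (c 1 - 2 * ρ - b 1).natAbs
    · exact ⟨c 1 - 2 * ρ, by omega, h⟩
    · exact ⟨c 1 + 2 * ρ, by omega, by omega⟩
  have hanchor : ∀ x : Vt 2, (x 0 - c 0).natAbs ≤ 2 * ρ ∧ (x 1 - c 1).natAbs ≤ 2 * ρ →
      (D < (x 0 - b 0).natAbs ∨ D < (x 1 - b 1).natAbs) → E x ![s0, r0] := by
    intro x hx hxb
    have hxe : x = ![x 0, x 1] := by
      funext i
      fin_cases i <;> rfl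
    rw [hxe]
    rcases hxb with h | h
    · exact ht _ _ _ (hcol (x 0) hx.1 h (x 1) r0 hx.2 hr0) (hrow r0 hr0 hr0' (x 0) s0 hx.1 hs0)
    · exact ht _ _ _ (hrow (x 1) hx.2 h (x 0) s0 hx.1 hs0) (hcol s0 hs0 hs0' (x 1) r0 hx.2 hr0)
  intro x x' h1 h2 h3 h4
  exact ht _ _ _ (hanchor x h1 h3) (hs _ _ (hanchor x' h2 h4))

lemma nm2_abs (x : Vt 2) (n : ℕ) : nm x ≤ n ↔ ∀ i, |x i| ≤ (n : ℤ) := by
  rw [nm2_le]
  constructor
  · rintro ⟨h0, h1⟩ i
    rw [Int.abs_eq_natAbs]
    fin_cases i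
    · exact_mod_cast h0
    · exact_mod_cast h1
  · intro h
    have h0 := h 0
    have h1 := h 1
    rw [Int.abs_eq_natAbs] at h0 h1
    omega

/-- The centre of the bad ball. -/
lemma bad_centre (ρ D : ℕ) (B : Set (Vt 2)) (k : ℕ) (y : Vt 2) (hy : y ∉ bd ρ D B (k + 1)) :
    ∃ b : Vt 2, (∀ x, nm (x - sc ρ y) ≤ 2 * ρ → D < nm (x - b) → x ∉ bd ρ D B k) ∧
      (b ∈ bd ρ D B k ∨ D < nm b) := by
  by_cases h : ∃ b, nm (b - sc ρ y) ≤ 2 * ρ ∧ b ∈ bd ρ D B k
  · obtain ⟨b, hb1, hb2⟩ := h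
    refine ⟨b, fun x hx hxb hbad => hy ?_, Or.inl hb2⟩
    exact ⟨x, b, hx, hb1, hxb, hbad, hb2⟩
  · refine ⟨fun _ => (D : ℤ) + 1, fun x hx _ hbad => h ⟨x, hx, hbad⟩, Or.inr ?_⟩
    rw [nm2_lt]
    left
    omega

theorem pf_BDD : T_BDD := by
  classical
  intro ρ D hρ B hgood
  have hρ1 : 10 ≤ ρ := by omega
  set R : Vt 2 → Vt 2 → Prop :=
    Relation.ReflTransGen (fun u v => u ∉ B ∧ v ∉ B ∧ nm (u - v) ≤ 1) with hR
  have Rr : ∀ x, R x x := fun x => Relation.ReflTransGen.refl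
  have Rt : ∀ x y z, R x y → R y z → R x z := fun x y z h1 h2 => h1.trans h2
  have Rs : ∀ x y, R x y → R y x := by
    intro x y h
    induction h with
    | refl => exact Rr _
    | tail _ hbc ih =>
      refine Relation.ReflTransGen.head ⟨hbc.2.1, hbc.1, ?_⟩ ih
      have h3 := hbc.2.2
      rw [nm2_le, Pi.sub_apply, Pi.sub_apply] at h3 ⊢
      omega
  -- non-excluded blocks of a window are joined
  have hwin : ∀ (k : ℕ) (g : Vt 2 → Vt 2),
      (∀ y y', y ∉ bd ρ D B k → y' ∉ bd ρ D B k → nm (y - y') ≤ 1 → R (g y) (g y')) →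
      ∀ (y b : Vt 2), (∀ x, nm (x - sc ρ y) ≤ 2 * ρ → D < nm (x - b) → x ∉ bd ρ D B k) →
      ∀ x x', nm (x - sc ρ y) ≤ 2 * ρ → nm (x' - sc ρ y) ≤ 2 * ρ → D < nm (x - b) →
        D < nm (x' - b) → R (g x) (g x') := by
    intro k g hg y b hb
    apply win_conn (fun u v => R (g u) (g v)) (fun x => Rr _) (fun x y h => Rs _ _ h)
      (fun x y z h1 h2 => Rt _ _ _ h1 h2) (sc ρ y) b ρ D (by omega)
    intro u v hu hv hub hvb huv
    exact hg u v (hb u hu hub) (hb v hv hvb) huv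
  have hcorner : ∀ c b : Vt 2, ∃ x, nm (x - c) ≤ 2 * ρ ∧ D < nm (x - b) ∧
      2 * ρ ≤ nm (x - c) := by
    intro c b
    by_cases h : D < (c 0 - 2 * ρ - b 0).natAbs
    · refine ⟨fun i => c i - 2 * ρ, ?_, ?_, ?_⟩
      · rw [nm2_le]
        simp only [Pi.sub_apply]
        omega
      · rw [nm2_lt]
        simp only [Pi.sub_apply]
        exact Or.inl h
      · by_contra hcon
        push Not at hcon
        have h2 := (nm2_le _ (2 * ρ - 1)).1 (by omega :
          nm ((fun i => c i - 2 * ρ : Vt 2) - c) ≤ 2 * ρ - 1)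
        simp only [Pi.sub_apply] at h2
        omega
    · refine ⟨fun i => c i + 2 * ρ, ?_, ?_, ?_⟩
      · rw [nm2_le]
        simp only [Pi.sub_apply]
        omega
      · rw [nm2_lt]
        simp only [Pi.sub_apply]
        left
        omega
      · by_contra hcon
        push Not at hcon
        have h2 := (nm2_le _ (2 * ρ - 1)).1 (by omega :
          nm ((fun i => c i + 2 * ρ : Vt 2) - c) ≤ 2 * ρ - 1)
        simp only [Pi.sub_apply] at h2
        omega
  -- the induction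
  have hind : ∀ k : ℕ, ∃ g : Vt 2 → Vt 2,
      (∀ y, y ∉ bd ρ D B k → g y ∉ B ∧ nm (g y - sc (ρ ^ k) y) ≤ 3 * ρ ^ k) ∧
      (∀ y y', y ∉ bd ρ D B k → y' ∉ bd ρ D B k → nm (y - y') ≤ 1 → R (g y) (g y')) ∧
      R 0 (g 0) := by
    intro k
    induction k with
    | zero =>
      refine ⟨id, fun y hy => ⟨hy, ?_⟩, fun y y' hy hy' h => ?_, Rr _⟩
      · rw [nm2_abs]
        intro i
        simp [sc]
      · exact Relation.ReflTransGen.single ⟨hy, hy', h⟩
    | succ k ih =>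
      obtain ⟨g, hg1, hg2, hg3⟩ := ih
      have hch : ∀ y, ∃ x b : Vt 2, y ∉ bd ρ D B (k + 1) →
          (∀ x, nm (x - sc ρ y) ≤ 2 * ρ → D < nm (x - b) → x ∉ bd ρ D B k) ∧
          (b ∈ bd ρ D B k ∨ D < nm b) ∧ nm (x - sc ρ y) ≤ 2 * ρ ∧ D < nm (x - b) := by
        intro y
        by_cases hy : y ∉ bd ρ D B (k + 1)
        · obtain ⟨b, hb1, hb2⟩ := bad_centre ρ D B k y hy
          obtain ⟨x, hx1, hx2, -⟩ := hcorner (sc ρ y) b
          exact ⟨x, b, fun _ => ⟨hb1, hb2, hx1, hx2⟩⟩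
        · exact ⟨0, 0, fun h => absurd h hy⟩
      choose xx bb hxb using hch
      refine ⟨fun y => g (xx y), ?_, ?_, ?_⟩
      · intro y hy
        obtain ⟨h1, -, h3, h4⟩ := hxb y hy
        obtain ⟨h5, h6⟩ := hg1 (xx y) (h1 _ h3 h4)
        refine ⟨h5, ?_⟩
        rw [nm2_abs] at h3 h6 ⊢
        intro i
        have e3 := h3 i
        have e6 := h6 i
        simp only [Pi.sub_apply, sc] at e3 e6 ⊢
        push_cast at e3 e6 ⊢
        have hpk : (0 : ℤ) < (ρ : ℤ) ^ k := by positivity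
        have hρ3 : (3 : ℤ) ≤ ρ := by exact_mod_cast (by omega : 3 ≤ ρ)
        have e7 : g (xx y) i - (ρ : ℤ) ^ (k + 1) * y i =
            (g (xx y) i - (ρ : ℤ) ^ k * xx y i) + (ρ : ℤ) ^ k * (xx y i - ρ * y i) := by ring
        rw [e7]
        refine (abs_add_le _ _).trans ?_
        rw [abs_mul, abs_of_pos hpk]
        have e8 : (ρ : ℤ) ^ k * |xx y i - ρ * y i| ≤ (ρ : ℤ) ^ k * (2 * ρ) :=
          mul_le_mul_of_nonneg_left e3 hpk.le
        calc |g (xx y) i - (ρ : ℤ) ^ k * xx y i| + (ρ : ℤ) ^ k * |xx y i - ρ * y i|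
            ≤ 3 * (ρ : ℤ) ^ k + (ρ : ℤ) ^ k * (2 * ρ) := add_le_add e6 e8
          _ ≤ ρ * (ρ : ℤ) ^ k + (ρ : ℤ) ^ k * (2 * ρ) := by
              have := mul_le_mul_of_nonneg_right hρ3 hpk.le
              linarith
          _ = 3 * (ρ : ℤ) ^ (k + 1) := by ring
      · intro y y' hy hy' hyy
        obtain ⟨h1, -, h3, h4⟩ := hxb y hy
        obtain ⟨h1', -, h3', h4'⟩ := hxb y' hy'
        -- a common block
        have hcommon : ∃ x : Vt 2, nm (x - sc ρ y) ≤ 2 * ρ ∧ nm (x - sc ρ y') ≤ 2 * ρ ∧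
            D < nm (x - bb y) ∧ D < nm (x - bb y') := by
          rw [nm2_abs] at hyy
          have hk : ∀ i, |(ρ : ℤ) * y i - ρ * y' i| ≤ ρ := by
            intro i
            have h5 := hyy i
            rw [Pi.sub_apply] at h5
            rw [← mul_sub, abs_mul]
            have : |(ρ : ℤ)| = ρ := abs_of_nonneg (by positivity)
            rw [this]
            calc (ρ : ℤ) * |y i - y' i| ≤ ρ * 1 :=
                  mul_le_mul_of_nonneg_left (by exact_mod_cast h5) (by positivity)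
              _ = ρ := mul_one _
          have hk0 := abs_le.1 (hk 0)
          have hk1 := abs_le.1 (hk 1)
          have hp : ∀ j : ℤ, |j| ≤ 1 → nm (![ρ * y 0 + j * ρ, ρ * y 1] - sc ρ y) ≤ 2 * ρ ∧
              nm (![ρ * y 0 + j * ρ, ρ * y 1] - sc ρ y') ≤ 2 * ρ := by
            intro j hj
            have h6 : |j * (ρ : ℤ)| ≤ ρ := by
              rw [abs_mul]
              have : |(ρ : ℤ)| = ρ := abs_of_nonneg (by positivity)
              rw [this]
              calc |j| * (ρ : ℤ) ≤ 1 * ρ := mul_le_mul_of_nonneg_right hj (by positivity)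
                _ = ρ := one_mul _
            rw [abs_le] at h6
            constructor
            · rw [nm2_le]
              simp only [Pi.sub_apply, sc, Matrix.cons_val_zero, Matrix.cons_val_one]
              omega
            · rw [nm2_le]
              simp only [Pi.sub_apply, sc, Matrix.cons_val_zero, Matrix.cons_val_one]
              omega
          have hsel : ∃ j : ℤ, |j| ≤ 1 ∧ D < (ρ * y 0 + j * ρ - bb y 0).natAbs ∧
              D < (ρ * y 0 + j * ρ - bb y' 0).natAbs := by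
            by_cases c0 : D < (ρ * y 0 + 0 * ρ - bb y 0).natAbs ∧
                D < (ρ * y 0 + 0 * ρ - bb y' 0).natAbs
            · exact ⟨0, by norm_num, c0⟩
            by_cases c1 : D < (ρ * y 0 + 1 * ρ - bb y 0).natAbs ∧
                D < (ρ * y 0 + 1 * ρ - bb y' 0).natAbs
            · exact ⟨1, by norm_num, c1⟩
            refine ⟨-1, by norm_num, ?_⟩
            constructor <;> omega
          obtain ⟨j, hj, hj1, hj2⟩ := hsel
          refine ⟨![ρ * y 0 + j * ρ, ρ * y 1], (hp j hj).1, (hp j hj).2, ?_, ?_⟩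
          · rw [nm2_lt]
            left
            simpa using hj1
          · rw [nm2_lt]
            left
            simpa using hj2
        obtain ⟨x, hx1, hx2, hx3, hx4⟩ := hcommon
        have r1 := hwin k g hg2 y (bb y) h1 (xx y) x h3 hx1 h4 hx3
        have r2 := hwin k g hg2 y' (bb y') h1' x (xx y') hx2 h3' hx4 h4'
        exact Rt _ _ _ r1 r2
      · have h0 : (0 : Vt 2) ∉ bd ρ D B (k + 1) := hgood (k + 1) 0 (by rw [nm2_le]; simp)
        obtain ⟨h1, h2, h3, h4⟩ := hxb 0 h0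
        have hz : D < nm ((0 : Vt 2) - bb 0) := by
          have h5 : D < nm (bb 0) := by
            rcases h2 with h2 | h2
            · by_contra hcon
              exact hgood k (bb 0) (not_lt.1 hcon) h2
            · exact h2
          rw [nm2_lt] at h5 ⊢
          simp only [Pi.sub_apply, Pi.zero_apply]
          omega
        have hz2 : nm ((0 : Vt 2) - sc ρ 0) ≤ 2 * ρ := by
          rw [nm2_abs]
          intro i
          simp [sc]
        exact Rt _ _ _ hg3 (hwin k g hg2 0 (bb 0) h1 0 (xx 0) hz2 h3 hz h4)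
  -- conclusion
  intro hfin
  obtain ⟨N, hN⟩ := (hfin.image nm).bddAbove
  obtain ⟨g, hg1, hg2, hg3⟩ := hind (N + 1)
  have h0 : (0 : Vt 2) ∉ bd ρ D B (N + 1 + 1) := hgood _ 0 (by rw [nm2_le]; simp)
  obtain ⟨b, hb1, hb2⟩ := bad_centre ρ D B (N + 1) 0 h0
  obtain ⟨x, hx1, hx2, hx3⟩ := hcorner (sc ρ 0) b
  have hz : D < nm ((0 : Vt 2) - b) := by
    have h5 : D < nm b := by
      rcases hb2 with h2 | h2
      · by_contra hcon
        exact hgood _ b (not_lt.1 hcon) h2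
      · exact h2
    rw [nm2_lt] at h5 ⊢
    simp only [Pi.sub_apply, Pi.zero_apply]
    omega
  have hz2 : nm ((0 : Vt 2) - sc ρ 0) ≤ 2 * ρ := by
    rw [nm2_abs]
    intro i
    simp [sc]
  have hr := Rt _ _ _ hg3 (hwin (N + 1) g hg2 0 b hb1 0 x hz2 hx1 hz hx2)
  have hmem : g x ∈ gcl B := hr
  have h6 : nm (g x) ≤ N := hN ⟨g x, hmem, rfl⟩
  have h7 := (hg1 x (hb1 x hx1 hx2)).2
  have h8 : N + 1 < ρ ^ (N + 1) := Nat.lt_pow_self (by omega)
  -- a coordinate of `x` of absolute value `2 ρ`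
  have h9 : ∃ i, 2 * (ρ : ℤ) ≤ |x i| := by
    by_contra hcon
    push Not at hcon
    have h10 : nm (x - sc ρ 0) ≤ 2 * ρ - 1 := by
      rw [nm2_abs]
      intro i
      have := hcon i
      simp only [Pi.sub_apply, sc, Pi.zero_apply, mul_zero, sub_zero]
      omega
    omega
  obtain ⟨i, hi⟩ := h9
  rw [nm2_abs] at h6 h7
  have e6 := h6 i
  have e7 := h7 i
  simp only [Pi.sub_apply, sc] at e7
  push_cast at e7
  have hpk : (0 : ℤ) < (ρ : ℤ) ^ (N + 1) := by positivity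
  have e8 : (ρ : ℤ) ^ (N + 1) * (2 * ρ) ≤ |(ρ : ℤ) ^ (N + 1) * x i| := by
    rw [abs_mul, abs_of_pos hpk]
    exact mul_le_mul_of_nonneg_left hi hpk.le
  have e9 : |(ρ : ℤ) ^ (N + 1) * x i| ≤ |g x i| + |g x i - (ρ : ℤ) ^ (N + 1) * x i| := by
    have := abs_sub_abs_le_abs_sub ((ρ : ℤ) ^ (N + 1) * x i) (g x i)
    rw [abs_sub_comm] at this
    linarith
  have e10 : ((N : ℤ) + 1) < (ρ : ℤ) ^ (N + 1) := by exact_mod_cast h8
  have e11 : (ρ : ℤ) ^ (N + 1) * (2 * 10) ≤ (ρ : ℤ) ^ (N + 1) * (2 * ρ) := by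
    apply mul_le_mul_of_nonneg_left _ hpk.le
    have : (10 : ℤ) ≤ ρ := by exact_mod_cast hρ1
    linarith
  linarith

end Pool.Agent.H86.LP
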