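import Pool.Agent.H62.LP.T3

set_option autoImplicit false

open MeasureTheory ProbabilityTheory Filter Topology
open scoped ENNReal NNReal
open Pool.Agent.H62.LP

namespace Pool.Agent.H86.LP

lemma blk_sum (q : ℝ) (h0 : 0 ≤ q) (h1 : q ≤ 1 / 2) :
    ∑' k : ℕ, ENNReal.ofReal (q ^ (2 ^ k)) ≤ ENNReal.ofReal (q * 2) := by
  have h2 : ∀ k : ℕ, q ^ (2 ^ k) ≤ q * (1 / 2) ^ k := by
    intro k
    have h3 : k + 1 ≤ 2 ^ k := Nat.lt_two_pow_self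
    calc q ^ (2 ^ k) ≤ q ^ (k + 1) := pow_le_pow_of_le_one h0 (by linarith) h3
      _ = q * q ^ k := by ring
      _ ≤ q * (1 / 2) ^ k := mul_le_mul_of_nonneg_left (pow_le_pow_left₀ h0 h1 k) h0
  have h4 : Summable (fun k : ℕ => q * (1 / 2 : ℝ) ^ k) :=
    (summable_geometric_two).mul_left q
  calc ∑' k : ℕ, ENNReal.ofReal (q ^ (2 ^ k)) ≤ ∑' k : ℕ, ENNReal.ofReal (q * (1 / 2) ^ k) :=
        ENNReal.tsum_le_tsum fun k => ENNReal.ofReal_le_ofReal (h2 k)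
    _ = ENNReal.ofReal (∑' k : ℕ, q * (1 / 2) ^ k) :=
        (ENNReal.ofReal_tsum_of_nonneg (fun k => by positivity) h4).symm
    _ = ENNReal.ofReal (q * 2) := by rw [tsum_mul_left, tsum_geometric_two]

theorem pf_BLK (hBDD : T_BDD) (hBDC : T_BDC) : T_BLK := by
  classical
  intro K₁
  set D : ℕ := K₁ + 6 with hD
  set ρ : ℕ := 10 * (D + 1) with hρ
  set q : ℝ := 1 / (4 * (2 * D + 1) ^ 2) with hq
  have hq0 : 0 < q := by rw [hq]; positivity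
  have hq1 : q ≤ 1 / 2 := by
    rw [hq, div_le_div_iff₀ (by positivity) (by positivity)]
    have : (1 : ℝ) ≤ (2 * (D : ℝ) + 1) ^ 2 := one_le_pow₀ (by linarith [Nat.cast_nonneg (α := ℝ) D])
    linarith
  have hW : (0 : ℝ) < (4 * (ρ : ℝ) + 1) ^ 4 := by positivity
  refine ⟨q / (4 * (ρ : ℝ) + 1) ^ 4, by positivity, ?_⟩
  intro Ω _ P _ B _hB hY
  set δ : ℝ := q / (4 * (ρ : ℝ) + 1) ^ 4 with hδ
  have hδ0 : 0 < δ := by rw [hδ]; positivity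
  have hδq : (4 * (ρ : ℝ) + 1) ^ 4 * δ = q := by rw [hδ]; field_simp
  have hA : ∀ k y, P {ω | y ∈ bd ρ D (B ω) k} ≤ ENNReal.ofReal (q ^ (2 ^ k)) := by
    intro k y
    obtain ⟨𝓕, h1, h2, h3⟩ := hBDC ρ D K₁ (by omega) (by omega) k y
    have h4 : {ω | y ∈ bd ρ D (B ω) k} ⊆ ⋃ Y ∈ 𝓕, {ω | (Y : Set (Vt 2)) ⊆ B ω} := by
      intro ω hω
      obtain ⟨Y, hY1, hY2⟩ := h3 (B ω) hω
      simp only [Set.mem_iUnion]
      exact ⟨Y, hY1, hY2⟩
    calc P {ω | y ∈ bd ρ D (B ω) k} ≤ P (⋃ Y ∈ 𝓕, {ω | (Y : Set (Vt 2)) ⊆ B ω}) := measure_mono h4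
      _ ≤ ∑ Y ∈ 𝓕, P {ω | (Y : Set (Vt 2)) ⊆ B ω} := measure_biUnion_finset_le _ _
      _ ≤ ∑ _Y ∈ 𝓕, ENNReal.ofReal (δ ^ (2 ^ k)) := by
          refine Finset.sum_le_sum fun Y hY' => ?_
          have h5 := hY Y (h2 Y hY').2.1
          rwa [(h2 Y hY').1] at h5
      _ = ENNReal.ofReal ((𝓕.card : ℝ) * δ ^ (2 ^ k)) := by
          rw [Finset.sum_const, nsmul_eq_mul, ENNReal.ofReal_mul (by positivity),
            ENNReal.ofReal_natCast]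
      _ ≤ ENNReal.ofReal (q ^ (2 ^ k)) := by
          apply ENNReal.ofReal_le_ofReal
          have h6 : (𝓕.card : ℝ) ≤ (4 * (ρ : ℝ) + 1) ^ (4 * (2 ^ k - 1)) := by exact_mod_cast h1
          have h7 : (4 * (ρ : ℝ) + 1) ^ (4 * (2 ^ k - 1)) ≤ ((4 * (ρ : ℝ) + 1) ^ 4) ^ (2 ^ k) := by
            rw [← pow_mul]
            apply pow_le_pow_right₀
            · linarith [Nat.cast_nonneg (α := ℝ) ρ]
            · exact Nat.mul_le_mul_left 4 (Nat.sub_le _ _)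
          calc (𝓕.card : ℝ) * δ ^ (2 ^ k) ≤ ((4 * (ρ : ℝ) + 1) ^ 4) ^ (2 ^ k) * δ ^ (2 ^ k) :=
                mul_le_mul_of_nonneg_right (h6.trans h7) (by positivity)
            _ = q ^ (2 ^ k) := by rw [← mul_pow, hδq]
  set S : Finset (Vt 2) := Fintype.piFinset fun _ => Finset.Icc (-(D : ℤ)) D with hS
  have hScard : S.card = (2 * D + 1) ^ 2 := by
    rw [hS, Fintype.card_piFinset]
    have h : ∀ _i : Fin 2, (Finset.Icc (-(D : ℤ)) D).card = 2 * D + 1 := by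
      intro i
      rw [Int.card_Icc]
      omega
    rw [Finset.prod_congr rfl (fun i _ => h i)]
    simp
  have hSmem : ∀ y : Vt 2, nm y ≤ D → y ∈ S := by
    intro y hy
    rw [hS, Fintype.mem_piFinset]
    intro i
    unfold nm at hy
    rw [Finset.sup_le_iff] at hy
    have := hy i (Finset.mem_univ _)
    rw [Finset.mem_Icc]
    omega
  have hU : P (⋃ k : ℕ, ⋃ y ∈ S, {ω | y ∈ bd ρ D (B ω) k}) ≤ 1 / 2 := by
    calc P (⋃ k : ℕ, ⋃ y ∈ S, {ω | y ∈ bd ρ D (B ω) k})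
        ≤ ∑' k : ℕ, P (⋃ y ∈ S, {ω | y ∈ bd ρ D (B ω) k}) := measure_iUnion_le _
      _ ≤ ∑' k : ℕ, ∑ y ∈ S, P {ω | y ∈ bd ρ D (B ω) k} :=
          ENNReal.tsum_le_tsum fun k => measure_biUnion_finset_le _ _
      _ ≤ ∑' k : ℕ, (((2 * D + 1) ^ 2 : ℕ) : ℝ≥0∞) * ENNReal.ofReal (q ^ (2 ^ k)) := by
          refine ENNReal.tsum_le_tsum fun k => ?_
          refine (Finset.sum_le_sum fun y _ => hA k y).trans ?_
          rw [Finset.sum_const, nsmul_eq_mul, hScard]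
      _ = (((2 * D + 1) ^ 2 : ℕ) : ℝ≥0∞) * ∑' k : ℕ, ENNReal.ofReal (q ^ (2 ^ k)) :=
          ENNReal.tsum_mul_left
      _ ≤ (((2 * D + 1) ^ 2 : ℕ) : ℝ≥0∞) * ENNReal.ofReal (q * 2) :=
          mul_le_mul_right (blk_sum q hq0.le hq1) _
      _ = ENNReal.ofReal (((2 * (D : ℝ) + 1) ^ 2) * (q * 2)) := by
          rw [ENNReal.ofReal_mul (p := (2 * (D : ℝ) + 1) ^ 2) (by positivity),
            ← ENNReal.ofReal_natCast]
          push_cast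
          rfl
      _ = 1 / 2 := by
          have : ((2 * (D : ℝ) + 1) ^ 2) * (q * 2) = 1 / 2 := by
            rw [hq]
            field_simp
            norm_num
          rw [this, ENNReal.ofReal_div_of_pos (by norm_num)]
          simp
  have hcov : (Set.univ : Set Ω) ⊆ {ω | (gcl (B ω)).Infinite} ∪
      ⋃ k : ℕ, ⋃ y ∈ S, {ω | y ∈ bd ρ D (B ω) k} := by
    intro ω _
    by_cases h : ∀ k y, nm y ≤ D → y ∉ bd ρ D (B ω) k
    · left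
      exact hBDD ρ D (le_refl _) (B ω) h
    · right
      push Not at h
      obtain ⟨k, y, hy, hyb⟩ := h
      simp only [Set.mem_iUnion]
      exact ⟨k, y, hSmem y hy, hyb⟩
  have h1 : (1 : ℝ≥0∞) ≤ P {ω | (gcl (B ω)).Infinite} + 1 / 2 := by
    calc (1 : ℝ≥0∞) = P Set.univ := measure_univ.symm
      _ ≤ P ({ω | (gcl (B ω)).Infinite} ∪ ⋃ k : ℕ, ⋃ y ∈ S, {ω | y ∈ bd ρ D (B ω) k}) :=
          measure_mono hcov
      _ ≤ P {ω | (gcl (B ω)).Infinite} + P (⋃ k : ℕ, ⋃ y ∈ S, {ω | y ∈ bd ρ D (B ω) k}) :=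
          measure_union_le _ _
      _ ≤ _ := add_le_add le_rfl hU
  have h2 : (1 : ℝ≥0∞) / 2 + 1 / 2 = 1 := ENNReal.add_halves 1
  have h3 : (1 : ℝ≥0∞) / 2 + 1 / 2 ≤ P {ω | (gcl (B ω)).Infinite} + 1 / 2 := h2.le.trans h1
  have h4 : (1 : ℝ≥0∞) / 2 ≠ ⊤ := by simp
  exact (ENNReal.add_le_add_iff_right h4).1 h3

end Pool.Agent.H86.LP
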