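import Pool.Agent.H62.LP.T1

set_option autoImplicit false

open MeasureTheory ProbabilityTheory Filter Topology
open scoped ENNReal NNReal
open Pool.Agent.H62.LP

namespace Pool.Agent.H86.LP

/-- Lists with a marked position are triples. -/
lemma split_tsum {V : Type} (F : List V → ℕ → ℝ≥0∞) :
    ∑' t : List V, ∑ i ∈ Finset.range t.length, F t i =
      ∑' (t1 : List V) (b : V) (t2 : List V), F (t1 ++ b :: t2) t1.length := by
  set f : List V × ℕ → ℝ≥0∞ := fun p => if p.2 < p.1.length then F p.1 p.2 else 0 with hf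
  set g : List V × (V × List V) → List V × ℕ := fun p => (p.1 ++ p.2.1 :: p.2.2, p.1.length) with hg
  have h1 : ∑' t : List V, ∑ i ∈ Finset.range t.length, F t i = ∑' p, f p := by
    rw [ENNReal.tsum_prod' (f := f)]
    refine tsum_congr fun t => ?_
    rw [tsum_eq_sum (s := Finset.range t.length)]
    · refine Finset.sum_congr rfl fun i hi => ?_
      rw [hf]
      simp only
      rw [if_pos (Finset.mem_range.1 hi)]
    · intro i hi
      rw [hf]
      simp only
      rw [if_neg (fun h => hi (Finset.mem_range.2 h))]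
  have hinj : Function.Injective g := by
    rintro ⟨t1, b, t2⟩ ⟨s1, c, s2⟩ h
    simp only [hg, Prod.mk.injEq] at h
    obtain ⟨h1, h2⟩ := h
    have h3 := List.append_inj h1 h2
    obtain ⟨h4, h5⟩ := h3
    rw [List.cons.injEq] at h5
    rw [h4, h5.1, h5.2]
  have hsup : Function.support f ⊆ Set.range g := by
    rintro ⟨t, i⟩ hti
    rw [Function.mem_support, hf] at hti
    simp only [ne_eq, ite_eq_right_iff, not_forall] at hti
    obtain ⟨hi, -⟩ := hti
    refine ⟨(t.take i, t[i], t.drop (i + 1)), ?_⟩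
    simp only [hg, Prod.mk.injEq]
    constructor
    · rw [← List.drop_eq_getElem_cons hi, List.take_append_drop]
    · rw [List.length_take]
      omega
  rw [h1, ← hinj.tsum_eq hsup, ENNReal.tsum_prod']
  refine tsum_congr fun t1 => ?_
  rw [ENNReal.tsum_prod']
  refine tsum_congr fun b => tsum_congr fun t2 => ?_
  simp only [hg, hf]
  rw [if_pos (by simp)]

lemma wt_split {V : Type} (q : V → V → ℝ≥0∞) (a b a' : V) (t1 t2 : List V) :
    wt q a ((t1 ++ b :: t2) ++ [a']) = wt q a (t1 ++ [b]) * wt q b (t2 ++ [a']) := by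
  have h : (t1 ++ b :: t2) ++ [a'] = (t1 ++ [b]) ++ (t2 ++ [a']) := by simp
  rw [h, wt_append, en_append]
  rfl

lemma vis_nil {V : Type} (f : V → ℝ≥0∞) : vis f [] = 0 := rfl

lemma vis_cons {V : Type} (f : V → ℝ≥0∞) (u : V) (t : List V) : vis f (u :: t) = f u + vis f t := by
  simp [vis]

lemma vis_eq {V : Type} (f : V → ℝ≥0∞) (t : List V) :
    vis f t = ∑ i ∈ Finset.range t.length, (t[i]?).elim 0 f := by
  induction t with
  | nil => simp [vis_nil]
  | cons u t ih =>
    rw [vis_cons, List.length_cons, Finset.sum_range_succ', ih, add_comm]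
    simp

theorem pf_MK1 : T_MK1 := by
  intro V q f a a'
  have h1 : ∀ t : List V, wt q a (t ++ [a']) * vis f t =
      ∑ i ∈ Finset.range t.length, wt q a (t ++ [a']) * (t[i]?).elim 0 f := by
    intro t
    rw [vis_eq, Finset.mul_sum]
  rw [tsum_congr h1, split_tsum (fun t i => wt q a (t ++ [a']) * (t[i]?).elim 0 f),
    ENNReal.tsum_comm]
  refine tsum_congr fun b => ?_
  have h2 : ∀ t1 t2 : List V,
      wt q a ((t1 ++ b :: t2) ++ [a']) * ((t1 ++ b :: t2)[t1.length]?).elim 0 f =
        (f b * wt q a (t1 ++ [b])) * wt q b (t2 ++ [a']) := by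
    intro t1 t2
    rw [wt_split]
    simp
    ring
  simp_rw [h2, ENNReal.tsum_mul_left, ENNReal.tsum_mul_right]
  rw [ENNReal.tsum_mul_left, Hk, Hk, mul_assoc]

end Pool.Agent.H86.LP
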