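import Pool.Agent.H62.LP.T2
import Pool.Agent.H86.LP.MK1

set_option autoImplicit false

open MeasureTheory ProbabilityTheory Filter Topology
open scoped ENNReal NNReal
open Pool.Agent.H62.LP

namespace Pool.Agent.H86.LP

open Classical in
/-- Every list has exactly one last visit to `A` or no visit. -/
lemma last_one {V : Type} (A : Set V) (t : List V) :
    (if (∀ u ∈ t, u ∉ A) then (1 : ℝ≥0∞) else 0) + ∑ i ∈ Finset.range t.length,
      (t[i]?).elim 0 (fun a => if a ∈ A ∧ ∀ u ∈ t.drop (i + 1), u ∉ A then (1 : ℝ≥0∞) else 0) = 1 := by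
  induction t with
  | nil => simp
  | cons u t ih =>
    rw [List.length_cons, Finset.sum_range_succ']
    simp only [List.getElem?_cons_succ, List.drop_succ_cons, List.getElem?_cons_zero, Option.elim_some,
      List.drop_zero]
    have key : (if (∀ v ∈ u :: t, v ∉ A) then (1 : ℝ≥0∞) else 0) +
        (if u ∈ A ∧ ∀ v ∈ t, v ∉ A then (1 : ℝ≥0∞) else 0) =
        if ∀ v ∈ t, v ∉ A then (1 : ℝ≥0∞) else 0 := by
      simp only [List.forall_mem_cons]
      by_cases h1 : u ∈ A <;> by_cases h2 : ∀ v ∈ t, v ∉ A <;> simp [h1, h2]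
    refine Eq.trans ?_ ih
    rw [← key]
    ring_nf

open Classical in
/-- Last visit decomposition of a sum over lists. -/
lemma last_tsum {V : Type} (A : Set V) (w : List V → ℝ≥0∞) :
    ∑' t, w t = (∑' t : List V, if (∀ u ∈ t, u ∉ A) then w t else 0) +
      ∑' (t1 : List V) (a : V) (t2 : List V),
        if a ∈ A ∧ ∀ u ∈ t2, u ∉ A then w (t1 ++ a :: t2) else 0 := by
  have h1 : ∀ t, w t = (if (∀ u ∈ t, u ∉ A) then w t else 0) + ∑ i ∈ Finset.range t.length,
      w t * (t[i]?).elim 0
        (fun a => if a ∈ A ∧ ∀ u ∈ t.drop (i + 1), u ∉ A then (1 : ℝ≥0∞) else 0) := by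
    intro t
    have h2 := last_one A t
    rw [← Finset.mul_sum]
    have h3 : (if (∀ u ∈ t, u ∉ A) then w t else 0) =
        w t * (if (∀ u ∈ t, u ∉ A) then (1 : ℝ≥0∞) else 0) := by
      split_ifs <;> simp
    rw [h3, ← mul_add, h2, mul_one]
  conv_lhs => rw [tsum_congr h1]
  rw [ENNReal.tsum_add, split_tsum (fun t i => w t * (t[i]?).elim 0
        (fun a => if a ∈ A ∧ ∀ u ∈ t.drop (i + 1), u ∉ A then (1 : ℝ≥0∞) else 0))]
  congr 1
  refine tsum_congr fun t1 => tsum_congr fun a => tsum_congr fun t2 => ?_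
  have h3 : (t1 ++ a :: t2).drop (t1.length + 1) = t2 := by
    rw [← List.drop_drop, List.drop_left]
    rfl
  rw [h3]
  simp

open Classical in
lemma wt_QB (B : Set V3) (x : V3) (s : List V3) :
    wt (QB B) x s = if (∀ u ∈ s, u ∈ B) then wt Q x s else 0 := by
  induction s generalizing x with
  | nil => simp
  | cons y s ih =>
    rw [wt_cons, wt_cons, ih, QB]
    simp only [List.forall_mem_cons]
    by_cases h1 : y ∈ B <;> by_cases h2 : ∀ u ∈ s, u ∈ B <;> simp [h1, h2]

lemma esc_eq (A B : Set V3) (a : V3) : esc A B a = ∑' (t : List V3) (y : V3),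
    by classical exact if (∀ u ∈ t, u ∈ B ∧ u ∉ A) ∧ y ∉ B then wt Q a (t ++ [y]) else 0 := by
  classical
  have h2 : ∀ y, (if y ∉ B then Rt A B a y else 0) =
      ∑' t : List V3, if (∀ u ∈ t, u ∈ B ∧ u ∉ A) ∧ y ∉ B then wt Q a (t ++ [y]) else 0 := by
    intro y
    by_cases hy : y ∈ B
    · simp [hy]
    · simp only [hy, not_false_eq_true, if_true, and_true]
      rfl
  rw [esc, tsum_congr h2, ENNReal.tsum_comm]

theorem pf_ESC (hFHT : T_FHT) (hQAV : T_QAV) : T_ESC := by
  classical
  intro A B hAB x hx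
  set W : List V3 → ℝ≥0∞ := fun t =>
    ∑' y : V3, if (∀ u ∈ t, u ∉ Bᶜ) ∧ y ∈ Bᶜ then wt Q x (t ++ [y]) else 0 with hW
  have h0 : ∑' t, W t ≤ 1 := by
    have h := hFHT V3 Q (fun x => (hQAV.2.1 x).le) Bᶜ x
    refine le_trans (le_of_eq ?_) h
    refine tsum_congr fun t => tsum_congr fun y => ?_
    congr
  refine le_trans ?_ h0
  rw [last_tsum A W]
  have h1 : ∀ a, (if a ∈ A then Gk (QB B) x a * esc A B a else 0) =
      (if x = a then (if a ∈ A then esc A B a else 0) else 0) +
        (if a ∈ A then Hk (QB B) x a * esc A B a else 0) := by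
    intro a
    rw [Gk]
    split_ifs <;> ring
  rw [tsum_congr h1, ENNReal.tsum_add]
  refine add_le_add ?_ ?_
  · rw [tsum_eq_single x]
    · rw [if_pos rfl]
      by_cases hxA : x ∈ A
      · rw [if_pos hxA, esc_eq]
        refine ENNReal.tsum_le_tsum fun t => ?_
        by_cases ht : ∀ u ∈ t, u ∉ A
        · rw [if_pos ht, hW]
          refine ENNReal.tsum_le_tsum fun y => ?_
          split_ifs with hc hd
          · exact le_rfl
          · exfalso
            apply hd
            refine ⟨fun u hu => ?_, hc.2⟩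
            rw [Set.mem_compl_iff, not_not]
            exact (hc.1 u hu).1
          · exact zero_le
          · exact zero_le
        · rw [if_neg ht]
          have : ∀ y : V3, (if (∀ u ∈ t, u ∈ B ∧ u ∉ A) ∧ y ∉ B then wt Q x (t ++ [y]) else 0) = 0 := by
            intro y
            rw [if_neg (fun h => ht fun u hu => (h.1 u hu).2)]
          rw [ENNReal.tsum_eq_zero.2 this]
      · rw [if_neg hxA]
        exact zero_le
    · intro a ha
      rw [if_neg (fun h => ha h.symm)]
  · rw [ENNReal.tsum_comm (f := fun (t1 : List V3) (a : V3) => ∑' (t2 : List V3),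
        if a ∈ A ∧ ∀ u ∈ t2, u ∉ A then W (t1 ++ a :: t2) else 0)]
    refine ENNReal.tsum_le_tsum fun a => ?_
    by_cases ha : a ∈ A
    · rw [if_pos ha, Hk, ← ENNReal.tsum_mul_right]
      refine ENNReal.tsum_le_tsum fun t1 => ?_
      rw [esc_eq, ← ENNReal.tsum_mul_left]
      refine ENNReal.tsum_le_tsum fun t2 => ?_
      rw [← ENNReal.tsum_mul_left, wt_QB]
      by_cases ht2 : ∀ u ∈ t2, u ∉ A
      · have hp : a ∈ A ∧ ∀ u ∈ t2, u ∉ A := ⟨ha, ht2⟩
        rw [if_pos hp, hW]
        refine ENNReal.tsum_le_tsum fun y => ?_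
        by_cases hc : (∀ u ∈ t2, u ∈ B ∧ u ∉ A) ∧ y ∉ B
        · by_cases ht1 : ∀ u ∈ t1 ++ [a], u ∈ B
          · have hd : (∀ u ∈ t1 ++ a :: t2, u ∉ Bᶜ) ∧ y ∈ Bᶜ := by
              refine ⟨fun u hu => ?_, hc.2⟩
              rw [Set.mem_compl_iff, not_not]
              rcases List.mem_append.1 hu with h3 | h3
              · exact ht1 u (List.mem_append_left _ h3)
              · rcases List.mem_cons.1 h3 with rfl | h3
                · exact hAB ha
                · exact (hc.1 u h3).1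
            rw [if_pos ht1, if_pos hc, if_pos hd, wt_split]
          · rw [if_neg ht1, zero_mul]
            exact zero_le
        · rw [if_neg hc, mul_zero]
          exact zero_le
      · have : ∀ y : V3, (if (∀ u ∈ t1 ++ [a], u ∈ B) then wt Q x (t1 ++ [a]) else 0) *
            (if (∀ u ∈ t2, u ∈ B ∧ u ∉ A) ∧ y ∉ B then wt Q a (t2 ++ [y]) else 0) = 0 := by
          intro y
          have h5 : ¬ ((∀ u ∈ t2, u ∈ B ∧ u ∉ A) ∧ y ∉ B) :=
            fun h => ht2 fun u hu => (h.1 u hu).2
          rw [if_neg h5, mul_zero]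
        rw [ENNReal.tsum_eq_zero.2 this]
        exact zero_le
    · rw [if_neg ha]
      exact zero_le

end Pool.Agent.H86.LP
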