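import Pool.Agent.H62.LP.T3

set_option autoImplicit false

open MeasureTheory ProbabilityTheory Filter Topology
open scoped ENNReal NNReal
open Pool.Agent.H62.LP

namespace Pool.Agent.H86.LP

/-- The relation generated by `E` and the links of several rounds. -/
def RelG {Ω : Type} {J : ℕ} (Lnk : V3 → V3 → V3 → Set Ω) (β : ℕ) (E : V3 → V3 → Prop)
    (ω : Fin J → Ω) : V3 → V3 → Prop :=
  Relation.EqvGen (fun x y => E x y ∨ (nm x ≤ 2 * β ∧ nm y ≤ 2 * β ∧
    ∃ (j : Fin J) (z : V3), nm z ≤ 2 * β ∧ ω j ∈ Lnk x y z))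

/-- The relation after one round. -/
def RelO {Ω : Type} (Lnk : V3 → V3 → V3 → Set Ω) (β : ℕ) (E : V3 → V3 → Prop) (w : Ω) :
    V3 → V3 → Prop :=
  Relation.EqvGen (fun x y => E x y ∨ (nm x ≤ 2 * β ∧ nm y ≤ 2 * β ∧
    ∃ (z : V3), nm z ≤ 2 * β ∧ w ∈ Lnk x y z))

lemma eqvGen_sub {α : Type} (r s : α → α → Prop) (h : ∀ x y, r x y → Relation.EqvGen s x y) :
    ∀ x y, Relation.EqvGen r x y → Relation.EqvGen s x y := by
  intro x y hxy
  induction hxy with
  | rel x y h1 => exact h x y h1
  | refl x => exact Relation.EqvGen.refl x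
  | symm x y _ ih => exact ih.symm _ _
  | trans x y z _ _ ih1 ih2 => exact ih1.trans _ _ _ ih2

lemma relO_cons {Ω : Type} {J : ℕ} (Lnk : V3 → V3 → V3 → Set Ω) (β : ℕ) (E : V3 → V3 → Prop)
    (w : Ω) (ω : Fin J → Ω) (x y : V3) (h : RelO Lnk β E w x y) :
    RelG Lnk β E (Fin.cons w ω : Fin (J + 1) → Ω) x y := by
  refine eqvGen_sub _ _ ?_ x y h
  intro x y hxy
  apply Relation.EqvGen.rel
  rcases hxy with h1 | ⟨h1, h2, z, h3, h4⟩
  · exact Or.inl h1
  · exact Or.inr ⟨h1, h2, 0, z, h3, by simpa using h4⟩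

lemma relG_cons {Ω : Type} {J : ℕ} (Lnk : V3 → V3 → V3 → Set Ω) (β : ℕ) (E : V3 → V3 → Prop)
    (w : Ω) (ω : Fin J → Ω) (x y : V3) (h : RelG Lnk β (RelO Lnk β E w) ω x y) :
    RelG Lnk β E (Fin.cons w ω : Fin (J + 1) → Ω) x y := by
  refine eqvGen_sub _ _ ?_ x y h
  intro x y hxy
  rcases hxy with h1 | ⟨h1, h2, j, z, h3, h4⟩
  · exact relO_cons Lnk β E w ω x y h1
  · exact Relation.EqvGen.rel _ _ (Or.inr ⟨h1, h2, j.succ, z, h3, by simpa using h4⟩)

/-- The relation differs from equality only inside the ball. -/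
def Bal (β : ℕ) (E : V3 → V3 → Prop) : Prop := ∀ x y, E x y → x = y ∨ (nm x ≤ 2 * β ∧ nm y ≤ 2 * β)

lemma bal_relO {Ω : Type} (Lnk : V3 → V3 → V3 → Set Ω) (β : ℕ) (E : V3 → V3 → Prop)
    (hE : Bal β E) (w : Ω) : Bal β (RelO Lnk β E w) := by
  intro x y h
  unfold RelO at h
  induction h with
  | rel x y h1 =>
    rcases h1 with h1 | h1
    · exact hE x y h1
    · exact Or.inr ⟨h1.1, h1.2.1⟩
  | refl x => exact Or.inl rfl
  | symm x y _ ih =>
    rcases ih with ih | ih
    · exact Or.inl ih.symm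
    · exact Or.inr ⟨ih.2, ih.1⟩
  | trans x y z _ _ ih1 ih2 =>
    rcases ih1 with ih1 | ih1 <;> rcases ih2 with ih2 | ih2
    · exact Or.inl (ih1.trans ih2)
    · rw [ih1]; exact Or.inr ih2
    · rw [← ih2]; exact Or.inr ih1
    · exact Or.inr ⟨ih1.1, ih2.2⟩

lemma relG_meas (hRLM : T_RLM) {Ω : Type} [MeasurableSpace Ω] {J : ℕ}
    (Lnk : V3 → V3 → V3 → Set Ω) (β : ℕ) (E : V3 → V3 → Prop)
    (hL : ∀ x y z, MeasurableSet (Lnk x y z)) (hE : Bal β E) (x y : V3) :
    MeasurableSet {ω : Fin (J + 1) → Ω | RelG Lnk β E ω x y} := by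
  classical
  set L' : V3 → V3 → V3 → Set Ω := fun x y z => {w | w ∈ Lnk x y z ∨ E x y} with hL'
  have h1 : ∀ x y z, MeasurableSet (L' x y z) := by
    intro x y z
    by_cases h : E x y
    · have : L' x y z = Set.univ := by
        ext w
        simp [hL', h]
      rw [this]
      exact MeasurableSet.univ
    · have : L' x y z = Lnk x y z := by
        ext w
        simp [hL', h]
      rw [this]
      exact hL x y z
  have h2 := hRLM Ω (J + 1) β L' h1 x y
  have h3 : {ω : Fin (J + 1) → Ω | RelG Lnk β E ω x y} =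
      {ω : Fin (J + 1) → Ω | RelJ L' β ω x y} := by
    ext ω
    rw [Set.mem_ofPred_eq, Set.mem_ofPred_eq]
    constructor
    · intro h
      refine eqvGen_sub _ _ ?_ x y h
      intro x y hxy
      rcases hxy with h4 | ⟨h4, h5, j, z, h6, h7⟩
      · rcases hE x y h4 with h5 | h5
        · rw [h5]
          exact Relation.EqvGen.refl y
        · refine Relation.EqvGen.rel _ _ ⟨h5.1, h5.2, 0, 0, ?_, Or.inr h4⟩
          have : nm (0 : V3) = 0 := by
            unfold nm
            simp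
          omega
      · exact Relation.EqvGen.rel _ _ ⟨h4, h5, j, z, h6, Or.inl h7⟩
    · intro h
      refine eqvGen_sub _ _ ?_ x y h
      rintro x y ⟨h4, h5, j, z, h6, h7⟩
      rcases h7 with h7 | h7
      · exact Relation.EqvGen.rel _ _ (Or.inr ⟨h4, h5, j, z, h6, h7⟩)
      · exact Relation.EqvGen.rel _ _ (Or.inl h7)
  rw [h3]
  exact h2

lemma ball3_finite (L : ℕ) : {x : V3 | nm x ≤ L}.Finite := by
  have h : {x : V3 | nm x ≤ L} ⊆ (Fintype.piFinset fun _ : Fin 3 => Finset.Icc (-(L : ℤ)) L :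
      Finset V3) := by
    intro x hx
    rw [Finset.mem_coe, Fintype.mem_piFinset]
    intro i
    have h1 : nm x ≤ L := hx
    unfold nm at h1
    rw [Finset.sup_le_iff] at h1
    have := h1 i (Finset.mem_univ _)
    rw [Finset.mem_Icc]
    omega
  exact (Finset.finite_toSet _).subset h

lemma cls_pos (E : V3 → V3 → Prop) (L : ℕ) : 1 ≤ cls E L := by
  unfold cls
  have h1 : ((fun x => {y | nm y ≤ L ∧ E x y}) '' {x : V3 | nm x ≤ L}).Finite :=
    (ball3_finite L).image _
  refine (Set.ncard_pos h1).2 ⟨_, 0, ?_, rfl⟩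
  rw [Set.mem_ofPred_eq]
  have : nm (0 : V3) = 0 := by
    unfold nm
    simp
  omega

lemma itr_aux (hRD1 : T_RD1) (hRD2 : T_RD2) (hRLM : T_RLM) (Ω : Type) [MeasurableSpace Ω]
    (P : Measure Ω) [IsProbabilityMeasure P] (β K₀ b t s : ℕ) (p : ℝ) (T : V3 → Set V3)
    (Lnk : V3 → V3 → V3 → Set Ω) (hp : 0 < p) (hp1 : p ≤ 1) (hT : Touch β T)
    (hL : LnkP P K₀ p β T Lnk) (hb : b + 1 ≤ β) (ht : t + 1 ≤ b) :
    ∀ (J : ℕ) (E : V3 → V3 → Prop) (L : ℕ), Equivalence E → Bal β E → L ≤ 2 * β → J * b ≤ L →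
      cls E L < (s + 1) ^ J →
      Measure.pi (fun _ : Fin J => P) {ω | ¬ ∀ x y, nm x + J * b ≤ L → nm y + J * b ≤ L →
        RelG Lnk β E ω x y} ≤ J * ENNReal.ofReal (qq β s t K₀ p) := by
  intro J
  induction J with
  | zero =>
    intro E L _ _ _ _ hc
    have := cls_pos E L
    rw [pow_zero] at hc
    omega
  | succ J ih =>
    intro E L hE hBE hLβ hJb hc
    set q : ℝ≥0∞ := ENNReal.ofReal (qq β s t K₀ p) with hq
    set S : Set (Fin (J + 1) → Ω) := {ω | ¬ ∀ x y, nm x + (J + 1) * b ≤ L →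
      nm y + (J + 1) * b ≤ L → RelG Lnk β E ω x y} with hS
    have hSm : MeasurableSet S := by
      have h1 : S = (⋂ x : V3, ⋂ y : V3, ⋂ _ : nm x + (J + 1) * b ≤ L,
          ⋂ _ : nm y + (J + 1) * b ≤ L, {ω | RelG Lnk β E ω x y})ᶜ := by
        ext ω
        simp only [hS, Set.mem_compl_iff, Set.mem_iInter, Set.mem_ofPred_eq]
      rw [h1]
      refine MeasurableSet.compl (MeasurableSet.iInter fun x => MeasurableSet.iInter fun y =>
        MeasurableSet.iInter fun _ => MeasurableSet.iInter fun _ => ?_)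
      exact relG_meas hRLM Lnk β E hL.1 hBE x y
    -- the exceptional set of the first round
    set G0 : Set Ω := {ω | ∃ F : Finset V3, F.card ≤ s ∧ (∀ x ∈ F, nm x ≤ L) ∧
      t ≤ (spot T L (hull E L F)).ncard ∧ ∀ x y z, x ∈ hull E L F → y ∉ hull E L F → nm y ≤ L →
        nm z ≤ 2 * β → ω ∉ Lnk x y z} with hG0
    have hG0P : P G0 ≤ q := hRD2 Ω P β K₀ p T Lnk hp hp1 hL L t s E hLβ
    set G : Set Ω := toMeasurable P G0 with hG
    have hGm : MeasurableSet G := measurableSet_toMeasurable P G0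
    have hGP : P G ≤ q := (measure_toMeasurable G0).le.trans hG0P
    set e := MeasurableEquiv.piFinSuccAbove (fun _ : Fin (J + 1) => Ω) 0 with he
    have hmp := (measurePreserving_piFinSuccAbove (fun _ : Fin (J + 1) => P) 0).symm e
    have h2 : Measure.pi (fun _ : Fin (J + 1) => P) S =
        (P.prod (Measure.pi (fun _ : Fin J => P))) (e.symm ⁻¹' S) :=
      (hmp.measure_preimage hSm.nullMeasurableSet).symm
    rw [h2, Measure.prod_apply (e.symm.measurable hSm)]
    have hcons : ∀ (w : Ω) (ω : Fin J → Ω), e.symm (w, ω) = (Fin.cons w ω : Fin (J + 1) → Ω) := by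
      intro w ω
      funext j
      refine Fin.cases ?_ (fun j => ?_) j
      · rfl
      · rfl
    have hsec : ∀ w, w ∉ G → Measure.pi (fun _ : Fin J => P) (Prod.mk w ⁻¹' (e.symm ⁻¹' S)) ≤
        J * q := by
      intro w hw
      have hw0 : w ∉ G0 := fun h => hw (subset_toMeasurable P G0 h)
      have hO : Equivalence (RelO Lnk β E w) := Relation.EqvGen.is_equivalence _
      have hround := hRD1 β T hT L b t s E (RelO Lnk β E w) hLβ hb (by
        have : b ≤ (J + 1) * b := Nat.le_mul_of_pos_left b (Nat.succ_pos J)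
        omega) ht hE hO
        (fun x y h => Relation.EqvGen.rel _ _ (Or.inl h)) (by
          intro F hF1 hF2 hF3
          by_contra hcon
          apply hw0
          refine ⟨F, hF1, hF2, hF3, ?_⟩
          intro x y z hx hy hyL hz hmem
          apply hcon
          refine ⟨x, y, hx, hy, hyL, Relation.EqvGen.rel _ _ (Or.inr ⟨?_, ?_, z, hz, hmem⟩)⟩
          · exact hx.1.trans hLβ
          · exact hyL.trans hLβ)
      have hJb' : (J + 1) * b = J * b + b := by ring
      rcases hround with hall | hdrop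
      · have hempty : Prod.mk w ⁻¹' (e.symm ⁻¹' S) = ∅ := by
          rw [Set.eq_empty_iff_forall_notMem]
          intro ω hω
          rw [Set.mem_preimage, Set.mem_preimage, hcons, hS, Set.mem_ofPred_eq] at hω
          apply hω
          intro x y hx hy
          exact relO_cons Lnk β E w ω x y (hall x y (by omega) (by omega))
        rw [hempty, measure_empty]
        exact zero_le
      · have hc' : cls (RelO Lnk β E w) (L - b) < (s + 1) ^ J := by
          have h3 : cls (RelO Lnk β E w) (L - b) * (s + 1) < (s + 1) ^ J * (s + 1) := by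
            rw [← pow_succ]
            exact lt_of_le_of_lt hdrop hc
          exact lt_of_mul_lt_mul_right h3 (Nat.zero_le _)
        refine le_trans (measure_mono ?_) (ih (RelO Lnk β E w) (L - b) hO
          (bal_relO Lnk β E hBE w) (by omega) (by omega) hc')
        intro ω hω
        rw [Set.mem_preimage, Set.mem_preimage, hcons, hS, Set.mem_ofPred_eq] at hω
        rw [Set.mem_ofPred_eq]
        intro hcon
        apply hω
        intro x y hx hy
        exact relG_cons Lnk β E w ω x y (hcon x y (by omega) (by omega))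
    calc ∫⁻ w, Measure.pi (fun _ : Fin J => P) (Prod.mk w ⁻¹' (e.symm ⁻¹' S)) ∂P
        ≤ ∫⁻ w, (G.indicator (fun _ => (1 : ℝ≥0∞)) w + J * q) ∂P := by
          refine lintegral_mono fun w => ?_
          by_cases hw : w ∈ G
          · simp only
            rw [Set.indicator_of_mem hw]
            exact prob_le_one.trans (le_add_right le_rfl)
          · simp only
            rw [Set.indicator_of_notMem hw, zero_add]
            exact hsec w hw
      _ = P G + J * q := by
          rw [lintegral_add_left (measurable_const.indicator hGm), lintegral_const,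
            lintegral_indicator hGm]
          simp
      _ ≤ q + J * q := add_le_add hGP le_rfl
      _ = ((J + 1 : ℕ) : ℝ≥0∞) * q := by
          push_cast
          ring

theorem pf_ITR (hRD1 : T_RD1) (hRD2 : T_RD2) (hRLM : T_RLM) : T_ITR := by
  intro Ω _ P _ J β K₀ b t s p T Lnk hp hp1 hT hL hc hJb hb ht
  have hbal : Bal β (fun x y : V3 => x = y) := fun x y h => Or.inl h
  have hcls : cls (fun x y : V3 => x = y) (2 * β) ≤ (4 * β + 1) ^ 3 := by
    unfold cls
    refine (Set.ncard_image_le (ball3_finite (2 * β))).trans ?_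
    have h : {x : V3 | nm x ≤ 2 * β} ⊆ ((Fintype.piFinset fun _ : Fin 3 =>
        Finset.Icc (-((2 * β : ℕ) : ℤ)) ((2 * β : ℕ) : ℤ) : Finset V3) : Set V3) := by
      intro x hx
      rw [Finset.mem_coe, Fintype.mem_piFinset]
      intro i
      have h1 : nm x ≤ 2 * β := hx
      unfold nm at h1
      rw [Finset.sup_le_iff] at h1
      have := h1 i (Finset.mem_univ _)
      rw [Finset.mem_Icc]
      omega
    refine (Set.ncard_le_ncard h (Finset.finite_toSet _)).trans ?_
    rw [Set.ncard_coe_finset, Fintype.card_piFinset]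
    have h2 : ∀ _i : Fin 3, (Finset.Icc (-((2 * β : ℕ) : ℤ)) ((2 * β : ℕ) : ℤ)).card =
        4 * β + 1 := by
      intro i
      rw [Int.card_Icc]
      omega
    rw [Finset.prod_congr rfl (fun i _ => h2 i)]
    simp
  have h := itr_aux hRD1 hRD2 hRLM Ω P β K₀ b t s p T Lnk hp hp1 hT hL hb ht J
    (fun x y => x = y) (2 * β) ⟨fun _ => rfl, fun h => h.symm, fun h1 h2 => h1.trans h2⟩ hbal
    le_rfl (by omega) (lt_of_le_of_lt hcls hc)
  refine le_trans (measure_mono ?_) h
  intro ω hω
  rw [Set.mem_ofPred_eq] at hω ⊢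
  intro hcon
  apply hω
  intro x y hx hy
  have h1 := hcon x y (by omega) (by omega)
  refine eqvGen_sub _ _ ?_ x y h1
  intro x y hxy
  rcases hxy with h2 | h2
  · rw [h2]
    exact Relation.EqvGen.refl y
  · exact Relation.EqvGen.rel _ _ h2

end Pool.Agent.H86.LP
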