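import Pool.Agent.H86.LP.MK1

set_option autoImplicit false

open MeasureTheory ProbabilityTheory Filter Topology
open scoped ENNReal NNReal
open Pool.Agent.H62.LP

namespace Pool.Agent.H86.LP

lemma vis_add {V : Type} (f g : V → ℝ≥0∞) (t : List V) :
    vis (fun b => f b + g b) t = vis f t + vis g t := by
  induction t with
  | nil => simp [vis_nil]
  | cons u t ih =>
    rw [vis_cons, vis_cons, vis_cons, ih]
    ring

lemma vis2_cons {V : Type} (g : V → V → ℝ≥0∞) (u : V) (t : List V) :
    vis2 g (u :: t) = (g u u + vis (fun b => g u b + g b u) t) + vis2 g t := by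
  have h1 : ∀ s : List V, vis2 g s = vis (fun b => vis (g b) s) s := fun s => rfl
  rw [h1, h1, vis_cons, vis_cons, vis_add]
  have h2 : (fun b => vis (g b) (u :: t)) = fun b => g b u + vis (g b) t := by
    funext b
    rw [vis_cons]
  rw [h2, vis_add (fun b => g b u) (fun b => vis (g b) t)]
  ring

lemma vis2_eq {V : Type} (g : V → V → ℝ≥0∞) (t : List V) :
    vis2 g t = ∑ i ∈ Finset.range t.length, (t[i]?).elim 0
      (fun b => g b b + vis (fun b' => g b b' + g b' b) (t.drop (i + 1))) := by
  induction t with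
  | nil => simp [vis2]
  | cons u t ih =>
    rw [vis2_cons, List.length_cons, Finset.sum_range_succ', ih, add_comm]
    simp

theorem pf_MK2 : T_MK2 := by
  classical
  intro V q g a a'
  have h1 : ∀ t : List V, wt q a (t ++ [a']) * vis2 g t =
      ∑ i ∈ Finset.range t.length, wt q a (t ++ [a']) * (t[i]?).elim 0
        (fun b => g b b + vis (fun b' => g b b' + g b' b) (t.drop (i + 1))) := by
    intro t
    rw [vis2_eq, Finset.mul_sum]
  rw [tsum_congr h1, split_tsum (fun t i => wt q a (t ++ [a']) * (t[i]?).elim 0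
        (fun b => g b b + vis (fun b' => g b b' + g b' b) (t.drop (i + 1)))), ENNReal.tsum_comm]
  refine ENNReal.tsum_le_tsum fun b => ?_
  have h2 : ∀ t1 t2 : List V,
      wt q a ((t1 ++ b :: t2) ++ [a']) * ((t1 ++ b :: t2)[t1.length]?).elim 0
        (fun x => g x x + vis (fun b' => g x b' + g b' x) ((t1 ++ b :: t2).drop (t1.length + 1))) =
        wt q a (t1 ++ [b]) * (wt q b (t2 ++ [a']) * g b b +
          wt q b (t2 ++ [a']) * vis (fun b' => g b b' + g b' b) t2) := by
    intro t1 t2
    rw [wt_split]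
    have h3 : (t1 ++ b :: t2).drop (t1.length + 1) = t2 := by
      rw [← List.drop_drop, List.drop_left]
      rfl
    rw [h3]
    simp
    ring
  simp_rw [h2, ENNReal.tsum_mul_left, ENNReal.tsum_add, ENNReal.tsum_mul_right]
  rw [pf_MK1 V q (fun b' => g b b' + g b' b) b a']
  have hHk : ∀ x y, ∑' t : List V, wt q x (t ++ [y]) = Hk q x y := fun x y => rfl
  rw [hHk, hHk]
  have h4 : ∀ b', (g b b' + g b' b) * (Hk q a b * Gk q b b' * Hk q b' a') =
      (g b b' + g b' b) * (Hk q a b * (if b = b' then 1 else 0) * Hk q b' a') +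
      Hk q a b * ((g b b' + g b' b) * (Hk q b b' * Hk q b' a')) := by
    intro b'
    rw [Gk]
    ring
  rw [tsum_congr h4, ENNReal.tsum_add, ENNReal.tsum_mul_left, mul_add]
  refine add_le_add ?_ le_rfl
  refine le_trans ?_ (ENNReal.le_tsum b)
  rw [if_pos rfl, mul_one]
  calc Hk q a b * (Hk q b a' * g b b) = g b b * (Hk q a b * Hk q b a') := by ring
    _ ≤ (g b b + g b b) * (Hk q a b * Hk q b a') := mul_le_mul_left (le_add_right le_rfl) _

end Pool.Agent.H86.LP
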