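import Pool.Agent.H62.LP.T1

set_option autoImplicit false

open MeasureTheory ProbabilityTheory Filter Topology
open scoped ENNReal NNReal
open Pool.Agent.H62.LP

namespace Pool.Agent.H86.LP

open Classical in
/-- The cyclic weight. -/
noncomputable def cycw {d : ℕ} : List (Vt d) → ℝ≥0∞
  | [] => 0
  | x :: t => if t = [] then 0 else wt Q x (t ++ [x])

lemma lw_eq {d : ℕ} (l : List (Vt d)) : lw l = cycw l / (l.length : ℝ≥0∞) := by
  match l with
  | [] => simp [lw, cycw]
  | [x] => simp [lw, cycw]
  | x :: y :: l =>
    simp only [lw, cycw, List.cons_append, List.length_cons]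
    rw [if_neg (by simp)]

lemma cycw_rotate_one {d : ℕ} (l : List (Vt d)) : cycw (l.rotate 1) = cycw l := by
  match l with
  | [] => simp
  | [x] => simp [cycw]
  | x :: y :: t =>
    have h1 : (x :: y :: t).rotate 1 = y :: (t ++ [x]) := by simp [List.rotate]
    rw [h1, cycw, cycw, if_neg (by simp), if_neg (by simp), wt_append, en_append]
    simp only [List.cons_append, wt_cons, en_cons, en_nil, wt_nil, mul_one]
    ring

lemma cycw_rotate {d : ℕ} (l : List (Vt d)) (i : ℕ) : cycw (l.rotate i) = cycw l := by
  induction i with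
  | zero => rw [List.rotate_zero]
  | succ i ih =>
    rw [← List.rotate_rotate, cycw_rotate_one, ih]

lemma rotate_bij {α : Type} (i : ℕ) : Function.Bijective (fun l : List α => l.rotate i) := by
  refine ⟨List.rotate_injective i, fun l => ⟨l.rotate (l.length - i % l.length), ?_⟩⟩
  exact List.rotate_eq_iff.2 rfl

theorem pf_ROT : T_ROT := by
  classical
  intro d ψ
  set Θ : List (Vt d) → ℝ≥0∞ := fun l => lw l * ψ l with hΘ
  have hlw : ∀ (l : List (Vt d)) (i : ℕ), lw (l.rotate i) = lw l := by
    intro l i
    rw [lw_eq, lw_eq, cycw_rotate, List.length_rotate]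
  have hsum : ∀ (G : List (Vt d) → ℕ → ℝ≥0∞) (l : List (Vt d)),
      ∑ i ∈ Finset.range l.length, G l i = ∑' i, if i < l.length then G l i else 0 := by
    intro G l
    rw [tsum_eq_sum (s := Finset.range l.length)]
    · refine Finset.sum_congr rfl fun i hi => ?_
      rw [if_pos (Finset.mem_range.1 hi)]
    · intro i hi
      rw [if_neg (fun h => hi (Finset.mem_range.2 h))]
  have h1 : ∀ l : List (Vt d), lw l * ∑ i ∈ Finset.range l.length, ψ (l.rotate i) =
      ∑' i, if i < (l.rotate i).length then Θ (l.rotate i) else 0 := by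
    intro l
    have h2 := hsum (fun l i => Θ (l.rotate i)) l
    simp only [List.length_rotate]
    rw [← h2, Finset.mul_sum]
    refine Finset.sum_congr rfl fun i _ => ?_
    rw [hΘ]
    simp only
    rw [hlw]
  rw [tsum_congr h1, ENNReal.tsum_comm]
  have h3 : ∀ i : ℕ, (∑' l : List (Vt d), if i < (l.rotate i).length then Θ (l.rotate i) else 0) =
      ∑' l : List (Vt d), if i < l.length then Θ l else 0 := by
    intro i
    exact Equiv.tsum_eq (Equiv.ofBijective _ (rotate_bij i))
      (fun l : List (Vt d) => if i < l.length then Θ l else 0)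
  rw [tsum_congr h3, ENNReal.tsum_comm]
  have h4 : ∀ l : List (Vt d), (∑' i, if i < l.length then Θ l else 0) = cycw l * ψ l := by
    intro l
    rw [← hsum (fun l _ => Θ l) l, Finset.sum_const, Finset.card_range, nsmul_eq_mul, hΘ]
    simp only
    rw [← mul_assoc, lw_eq]
    rcases Nat.eq_zero_or_pos l.length with h0 | hpos
    · have : l = [] := List.eq_nil_of_length_eq_zero h0
      subst this
      simp [cycw]
    · congr 1
      apply ENNReal.mul_div_cancel
      · exact_mod_cast hpos.ne'
      · exact ENNReal.natCast_ne_top _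
  rw [tsum_congr h4]
  -- the lists with at least one element
  set g : Vt d × List (Vt d) → List (Vt d) := fun p => p.1 :: p.2 with hg
  have hinj : Function.Injective g := by
    rintro ⟨a, t⟩ ⟨b, s⟩ h
    simp only [hg, List.cons.injEq] at h
    rw [h.1, h.2]
  have hsup : Function.support (fun l : List (Vt d) => cycw l * ψ l) ⊆ Set.range g := by
    intro l hl
    match l with
    | [] => simp [cycw] at hl
    | a :: t => exact ⟨(a, t), rfl⟩
  rw [← hinj.tsum_eq hsup, ENNReal.tsum_prod']
  refine tsum_congr fun a => tsum_congr fun t => ?_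
  simp only [hg, cycw]
  split_ifs <;> simp

end Pool.Agent.H86.LP
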