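import Pool.Agent.H62.LP.T2
import Pool.Agent.H86.LP.MK1

set_option autoImplicit false

open MeasureTheory ProbabilityTheory Filter Topology
open scoped ENNReal NNReal
open Pool.Agent.H62.LP

namespace Pool.Agent.H86.LP

lemma first_occ {V : Type} (p : V → Prop) (s : List V) (h : ∃ x ∈ s, p x) :
    ∃ s1 a s2, s = s1 ++ a :: s2 ∧ p a ∧ ∀ u ∈ s1, ¬ p u := by
  induction s with
  | nil => obtain ⟨x, hx, -⟩ := h; simp at hx
  | cons b s ih =>
    by_cases hb : p b
    · exact ⟨[], b, s, rfl, hb, by simp⟩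
    · have h2 : ∃ x ∈ s, p x := by
        obtain ⟨x, hx, hpx⟩ := h
        rcases List.mem_cons.1 hx with rfl | hx
        · exact absurd hpx hb
        · exact ⟨x, hx, hpx⟩
      obtain ⟨s1, a, s2, h3, h4, h5⟩ := ih h2
      refine ⟨b :: s1, a, s2, by rw [h3]; rfl, h4, ?_⟩
      intro u hu
      rcases List.mem_cons.1 hu with rfl | hu
      · exact hb
      · exact h5 u hu

lemma last_occ {V : Type} (p : V → Prop) (s : List V) (h : ∃ x ∈ s, p x) :
    ∃ s1 a s2, s = s1 ++ a :: s2 ∧ p a ∧ ∀ u ∈ s2, ¬ p u := by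
  induction s with
  | nil => obtain ⟨x, hx, -⟩ := h; simp at hx
  | cons b s ih =>
    by_cases h2 : ∃ x ∈ s, p x
    · obtain ⟨s1, a, s2, h3, h4, h5⟩ := ih h2
      exact ⟨b :: s1, a, s2, by rw [h3]; rfl, h4, h5⟩
    · obtain ⟨x, hx, hpx⟩ := h
      rcases List.mem_cons.1 hx with rfl | hx
      · exact ⟨[], x, s, rfl, hpx, fun u hu hpu => h2 ⟨u, hu, hpu⟩⟩
      · exact absurd ⟨x, hx, hpx⟩ h2

/-- The last vertex outside `B` is followed by vertices of `B \ A`. -/
def Gd (A B : Set V3) (y : V3) (t2 : List V3) : Prop := y ∉ B ∧ ∀ u ∈ t2, u ∈ B ∧ u ∉ A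

lemma rot_exists (A B : Set V3) (hAB : A ⊆ B) (l : List V3) (hA : ∃ x ∈ l, x ∈ A)
    (hB : ∃ y ∈ l, y ∉ B) : ∃ i < l.length, ∃ a t1 y t2, l.rotate i = a :: (t1 ++ y :: t2) ∧
      a ∈ A ∧ Gd A B y t2 := by
  obtain ⟨y, hy, hyB⟩ := hB
  obtain ⟨x, hx, hxA⟩ := hA
  have hlen : 0 < l.length := List.length_pos_of_mem hx
  obtain ⟨l1, l2, hl⟩ := List.append_of_mem hy
  have hs : ∃ x ∈ l2 ++ l1, x ∈ A := by
    refine ⟨x, ?_, hxA⟩
    rw [hl] at hx
    rcases List.mem_append.1 hx with h | h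
    · exact List.mem_append_right _ h
    · rcases List.mem_cons.1 h with rfl | h
      · exact absurd (hAB hxA) hyB
      · exact List.mem_append_left _ h
  obtain ⟨s1, a, s2, h3, h4, h5⟩ := first_occ (fun x => x ∈ A) _ hs
  obtain ⟨r1, y', r2, h6, h7, h8⟩ := last_occ (fun x => x ∉ B) (y :: s1) ⟨y, by simp, hyB⟩
  have hrot1 : l.rotate l1.length = (y :: s1) ++ (a :: s2) := by
    rw [hl, List.rotate_append_length_eq, List.cons_append, h3]
    rfl
  have hrot2 : l.rotate (l1.length + (y :: s1).length) = (a :: s2) ++ (y :: s1) := by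
    rw [← List.rotate_rotate, hrot1, List.rotate_append_length_eq]
  refine ⟨(l1.length + (y :: s1).length) % l.length, Nat.mod_lt _ hlen, a, s2 ++ r1, y', r2, ?_, h4,
    h7, ?_⟩
  · rw [List.rotate_mod, hrot2, h6]
    simp
  · intro u hu
    have h9 : u ∈ B := not_not.1 (h8 u hu)
    refine ⟨h9, ?_⟩
    have h10 : u ∈ y :: s1 := by
      rw [h6]
      simp [hu]
    rcases List.mem_cons.1 h10 with rfl | h11
    · exact absurd h9 hyB
    · exact h5 u h11

open Classical in
/-- The weight of the rotations. -/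
noncomputable def psiR (A B : Set V3) : List V3 → ℝ≥0∞
  | [] => 0
  | a :: t => if a ∈ A then ∑ i ∈ Finset.range t.length,
      (t[i]?).elim 0 (fun y => if Gd A B y (t.drop (i + 1)) then (1 : ℝ≥0∞) else 0) else 0

lemma psiR_ge (A B : Set V3) (a y : V3) (t1 t2 : List V3) (ha : a ∈ A) (h : Gd A B y t2) :
    1 ≤ psiR A B (a :: (t1 ++ y :: t2)) := by
  classical
  rw [psiR, if_pos ha]
  have hmem : t1.length ∈ Finset.range (t1 ++ y :: t2).length := by
    rw [Finset.mem_range]
    simp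
  refine le_trans ?_ (Finset.single_le_sum (fun _ _ => zero_le) hmem)
  have h3 : (t1 ++ y :: t2).drop (t1.length + 1) = t2 := by
    rw [← List.drop_drop, List.drop_left]
    rfl
  rw [h3]
  simp [h]

theorem pf_RTL (hROT : T_ROT) : T_RTL := by
  classical
  intro A B hAB
  have h1 : ∀ l : List V3, (if (∃ x ∈ l, x ∈ A) ∧ (∃ y ∈ l, y ∉ B) then lw l else 0) ≤
      lw l * ∑ i ∈ Finset.range l.length, psiR A B (l.rotate i) := by
    intro l
    split_ifs with h
    · obtain ⟨i, hi, a, t1, y, t2, h2, h3, h4⟩ := rot_exists A B hAB l h.1 h.2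
      have h5 : 1 ≤ ∑ i ∈ Finset.range l.length, psiR A B (l.rotate i) := by
        refine le_trans ?_ (Finset.single_le_sum (fun _ _ => zero_le) (Finset.mem_range.2 hi))
        rw [h2]
        exact psiR_ge A B a y t1 t2 h3 h4
      calc lw l = lw l * 1 := (mul_one _).symm
        _ ≤ _ := mul_le_mul_right h5 _
    · exact zero_le
  refine le_trans (ENNReal.tsum_le_tsum h1) ?_
  rw [hROT 3 (psiR A B)]
  refine ENNReal.tsum_le_tsum fun a => ?_
  by_cases ha : a ∈ A
  · have h2 : ∀ t : List V3, (if t = [] then 0 else wt Q a (t ++ [a]) * psiR A B (a :: t)) ≤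
        ∑ i ∈ Finset.range t.length, wt Q a (t ++ [a]) * (t[i]?).elim 0
          (fun y => if Gd A B y (t.drop (i + 1)) then (1 : ℝ≥0∞) else 0) := by
      intro t
      split_ifs with ht
      · exact zero_le
      · rw [psiR, if_pos ha, Finset.mul_sum]
    refine le_trans (ENNReal.tsum_le_tsum h2) ?_
    rw [split_tsum (fun t i => wt Q a (t ++ [a]) * (t[i]?).elim 0
          (fun y => if Gd A B y (t.drop (i + 1)) then (1 : ℝ≥0∞) else 0)), ENNReal.tsum_comm]
    refine ENNReal.tsum_le_tsum fun y => ?_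
    by_cases hy : y ∈ B
    · have h3 : ∀ t1 t2 : List V3, wt Q a ((t1 ++ y :: t2) ++ [a]) *
          ((t1 ++ y :: t2)[t1.length]?).elim 0 (fun x => if Gd A B x
            ((t1 ++ y :: t2).drop (t1.length + 1)) then (1 : ℝ≥0∞) else 0) = 0 := by
        intro t1 t2
        have h4 : ∀ s, ¬ Gd A B y s := fun s h => h.1 hy
        simp [h4]
      simp_rw [h3]
      simp
    · rw [if_pos ⟨ha, hy⟩]
      have h3 : ∀ t1 t2 : List V3, wt Q a ((t1 ++ y :: t2) ++ [a]) *
          ((t1 ++ y :: t2)[t1.length]?).elim 0 (fun x => if Gd A B x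
            ((t1 ++ y :: t2).drop (t1.length + 1)) then (1 : ℝ≥0∞) else 0) =
          wt Q a (t1 ++ [y]) * (if (∀ u ∈ t2, u ∈ B ∧ u ∉ A) then wt Q y (t2 ++ [a]) else 0) := by
        intro t1 t2
        have h4 : (t1 ++ y :: t2).drop (t1.length + 1) = t2 := by
          rw [← List.drop_drop, List.drop_left]
          rfl
        rw [h4, wt_split]
        by_cases h5 : ∀ u ∈ t2, u ∈ B ∧ u ∉ A
        · have h6 : Gd A B y t2 := ⟨hy, h5⟩
          rw [if_pos h5]
          simp [h6]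
        · have h6 : ¬ Gd A B y t2 := fun h => h5 h.2
          rw [if_neg h5]
          simp [h6]
      simp_rw [h3, ENNReal.tsum_mul_left, ENNReal.tsum_mul_right]
      rfl
  · have h2 : ∀ t : List V3, (if t = [] then 0 else wt Q a (t ++ [a]) * psiR A B (a :: t)) = 0 := by
      intro t
      split_ifs with ht
      · rfl
      · rw [psiR, if_neg ha, mul_zero]
    rw [tsum_congr h2]
    simp

end Pool.Agent.H86.LP
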