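import Pool.Agent.H62.LP.T2

set_option autoImplicit false

open MeasureTheory ProbabilityTheory Filter Topology
open scoped ENNReal NNReal
open Pool.Agent.H62.LP

namespace Pool.Agent.H86.LP

/-- Centred indicator functions. -/
noncomputable def zin {Ω : Type} [MeasurableSpace Ω] (P : Measure Ω) (B : Set Ω) (ω : Ω) : ℝ :=
  B.indicator (fun _ => (1 : ℝ)) ω - P.real B

lemma zin_int {Ω : Type} [MeasurableSpace Ω] (P : Measure Ω) [IsProbabilityMeasure P]
    (B B' : Set Ω) (hB : MeasurableSet B) (hB' : MeasurableSet B') :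
    Integrable (fun ω => zin P B ω * zin P B' ω) P ∧
      ∫ ω, zin P B ω * zin P B' ω ∂P = P.real (B ∩ B') - P.real B * P.real B' := by
  have e : (fun ω => zin P B ω * zin P B' ω) = fun ω =>
      ((B ∩ B').indicator (fun _ => (1 : ℝ)) ω - P.real B' * B.indicator (fun _ => (1 : ℝ)) ω) +
        (P.real B * P.real B' - P.real B * B'.indicator (fun _ => (1 : ℝ)) ω) := by
    funext ω
    unfold zin
    have h1 : (B ∩ B').indicator (fun _ => (1 : ℝ)) ω =
        B.indicator (fun _ => (1 : ℝ)) ω * B'.indicator (fun _ => (1 : ℝ)) ω := by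
      by_cases h1 : ω ∈ B <;> by_cases h2 : ω ∈ B' <;> simp [h1, h2]
    rw [h1]
    ring
  have i1 : Integrable ((B ∩ B').indicator (fun _ => (1 : ℝ))) P :=
    (integrable_const 1).indicator (hB.inter hB')
  have i2 : Integrable (B.indicator (fun _ => (1 : ℝ))) P := (integrable_const 1).indicator hB
  have i3 : Integrable (B'.indicator (fun _ => (1 : ℝ))) P := (integrable_const 1).indicator hB'
  have j1 : Integrable (fun ω => (B ∩ B').indicator (fun _ => (1 : ℝ)) ω -
      P.real B' * B.indicator (fun _ => (1 : ℝ)) ω) P := i1.sub (i2.const_mul _)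
  have j2 : Integrable (fun ω => P.real B * P.real B' -
      P.real B * B'.indicator (fun _ => (1 : ℝ)) ω) P := (integrable_const _).sub (i3.const_mul _)
  rw [e]
  refine ⟨j1.add j2, ?_⟩
  have k1 : ∀ S : Set Ω, MeasurableSet S → ∫ ω, S.indicator (fun _ => (1 : ℝ)) ω ∂P = P.real S := by
    intro S hS
    rw [integral_indicator_const _ hS]
    simp
  have k2 : ∫ ω, P.real B' * B.indicator (fun _ => (1 : ℝ)) ω ∂P = P.real B' * P.real B := by
    rw [integral_const_mul, k1 B hB]
  have k3 : ∫ ω, P.real B * B'.indicator (fun _ => (1 : ℝ)) ω ∂P = P.real B * P.real B' := by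
    rw [integral_const_mul, k1 B' hB']
  have k4 : ∫ _ω : Ω, P.real B * P.real B' ∂P = P.real B * P.real B' := by
    rw [integral_const]
    simp
  rw [integral_add j1 j2, integral_sub i1 (i2.const_mul _),
    integral_sub (integrable_const _) (i3.const_mul _), k1 _ (hB.inter hB'), k2, k3, k4]
  ring

lemma zin_var {Ω : Type} [MeasurableSpace Ω] (P : Measure Ω) [IsProbabilityMeasure P]
    (s : Finset ℕ) (B : ℕ → Set Ω) (hB : ∀ k, MeasurableSet (B k)) (c : ℕ → ℝ)
    (hind : ∀ k ∈ s, ∀ l ∈ s, k ≠ l → P (B k ∩ B l) = P (B k) * P (B l)) :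
    Integrable (fun ω => (∑ k ∈ s, c k * zin P (B k) ω) ^ 2) P ∧
      ∫ ω, (∑ k ∈ s, c k * zin P (B k) ω) ^ 2 ∂P ≤ ∑ k ∈ s, c k ^ 2 * P.real (B k) := by
  have e : (fun ω => (∑ k ∈ s, c k * zin P (B k) ω) ^ 2) = fun ω =>
      ∑ k ∈ s, ∑ l ∈ s, (c k * c l) * (zin P (B k) ω * zin P (B l) ω) := by
    funext ω
    rw [sq, Finset.sum_mul_sum]
    refine Finset.sum_congr rfl fun k _ => Finset.sum_congr rfl fun l _ => ?_
    ring
  have hi : ∀ k l, Integrable (fun ω => (c k * c l) * (zin P (B k) ω * zin P (B l) ω)) P :=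
    fun k l => (zin_int P (B k) (B l) (hB k) (hB l)).1.const_mul _
  rw [e]
  constructor
  · exact integrable_finsetSum _ fun k _ => integrable_finsetSum _ fun l _ => hi k l
  · rw [integral_finsetSum _ fun k _ => integrable_finsetSum _ fun l _ => hi k l]
    refine Finset.sum_le_sum fun k hk => ?_
    rw [integral_finsetSum _ fun l _ => hi k l, Finset.sum_eq_single k]
    · rw [integral_const_mul, (zin_int P (B k) (B k) (hB k) (hB k)).2, Set.inter_self]
      have h1 : 0 ≤ c k ^ 2 * P.real (B k) ^ 2 := by positivity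
      nlinarith
    · intro l hl hne
      rw [integral_const_mul, (zin_int P (B k) (B l) (hB k) (hB l)).2]
      have h1 := hind k hk l hl (Ne.symm hne)
      have h2 : P.real (B k ∩ B l) = P.real (B k) * P.real (B l) := by
        rw [measureReal_def, h1, ENNReal.toReal_mul]
        rfl
      rw [h2]
      ring
    · intro h
      exact absurd hk h

theorem pf_SMW : T_SMW := by
  classical
  intro κ C₀ M hκ _hC₀ hM
  have hM' : (1 : ℝ) ≤ M := by exact_mod_cast hM
  refine ⟨384 * M, by positivity, ?_⟩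
  intro Ω _ P _ I n N m a ρ A X ha hI hS hE hSa
  have hκ' : (0 : ℝ) < κ := by exact_mod_cast hκ
  have ha' : (0 : ℝ) < a := by exact_mod_cast ha
  have hI' : (1 : ℝ) ≤ I := by exact_mod_cast hI
  have hn : 1 ≤ n := by
    have := hS.pos 0 (Nat.zero_le _)
    rwa [hS.zero] at this
  have hn' : (1 : ℝ) ≤ n := by exact_mod_cast hn
  have hρ : 0 < ρ := by
    by_contra hcon
    push Not at hcon
    have h1 : ρ * (a : ℝ) ^ 3 ≤ 0 := mul_nonpos_of_nonpos_of_nonneg hcon (by positivity)
    have h2 := hS.big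
    linarith
  have hpa : ∀ i ∈ Finset.Icc 1 I, ∀ k ∈ Finset.Icc 1 (N i), (a : ℝ) ≤ P.real (A i k) := by
    intro i hi k hk
    rw [Finset.mem_Icc] at hi hk
    have h1 := hE.prob i k hi.1 hi.2 hk.1 hk.2
    have h2 := ENNReal.toReal_mono (measure_ne_top P _) h1
    simpa [measureReal_def] using h2
  -- the coefficients
  set c : ℕ → ℕ → ℝ := fun i k => (a : ℝ) / P.real (A i k) * (κ * m i) with hc
  set D : ℕ → Ω → ℝ := fun i ω => ∑ k ∈ Finset.Icc 1 (N i), c i k * zin P (A i k) ω with hD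
  set W : Ω → ℝ := fun ω => ∑ i ∈ Finset.Icc 1 I, ∑ k ∈ Finset.Icc 1 (N i),
    c i k * (A i k).indicator (fun _ => (1 : ℝ)) ω with hW
  set T : ℝ := I * a * κ * n / (12 * M) with hT
  have hTpos : 0 < T := by rw [hT]; positivity
  -- the mean
  have hmean : 2 * T ≤ ∑ i ∈ Finset.Icc 1 I, ∑ k ∈ Finset.Icc 1 (N i), c i k * P.real (A i k) := by
    have h1 : ∀ i ∈ Finset.Icc 1 I, (a : ℝ) * κ * n / (6 * M) ≤
        ∑ k ∈ Finset.Icc 1 (N i), c i k * P.real (A i k) := by
      intro i hi
      have h2 : ∀ k ∈ Finset.Icc 1 (N i), c i k * P.real (A i k) = a * κ * m i := by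
        intro k hk
        have h3 := hpa i hi k hk
        have h4 : P.real (A i k) ≠ 0 := by linarith
        rw [hc]
        simp only
        field_simp
      rw [Finset.sum_congr rfl h2, Finset.sum_const, Nat.card_Icc, nsmul_eq_mul]
      have h5 := hS.lo i (Finset.mem_Icc.1 hi).1 (Finset.mem_Icc.1 hi).2
      have h6 : (n : ℝ) ≤ N i * (6 * M * m i) := by exact_mod_cast h5
      rw [div_le_iff₀ (by positivity)]
      have h7 : ((N i + 1 - 1 : ℕ) : ℝ) = N i := by simp
      rw [h7]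
      calc (a : ℝ) * κ * n ≤ a * κ * (N i * (6 * M * m i)) :=
            mul_le_mul_of_nonneg_left h6 (by positivity)
        _ = N i * (a * κ * m i) * (6 * M) := by ring
    have h2 := Finset.sum_le_sum h1
    rw [Finset.sum_const, Nat.card_Icc, nsmul_eq_mul] at h2
    have h7 : ((I + 1 - 1 : ℕ) : ℝ) = I := by simp
    rw [h7] at h2
    refine le_trans (le_of_eq ?_) h2
    rw [hT]
    field_simp
    ring
  have hWD : ∀ ω, ∑ i ∈ Finset.Icc 1 I, D i ω =
      W ω - ∑ i ∈ Finset.Icc 1 I, ∑ k ∈ Finset.Icc 1 (N i), c i k * P.real (A i k) := by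
    intro ω
    rw [hD, hW, ← Finset.sum_sub_distrib]
    refine Finset.sum_congr rfl fun i _ => ?_
    simp only
    rw [← Finset.sum_sub_distrib]
    refine Finset.sum_congr rfl fun k _ => ?_
    unfold zin
    ring
  -- the second moment
  have hvar := fun i => zin_var P (Finset.Icc 1 (N i)) (A i) (hE.meas i) (c i)
  have hind : ∀ i ∈ Finset.Icc 1 I, ∀ k ∈ Finset.Icc 1 (N i), ∀ l ∈ Finset.Icc 1 (N i), k ≠ l →
      P (A i k ∩ A i l) = P (A i k) * P (A i l) := by
    intro i hi k hk l hl hne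
    rw [Finset.mem_Icc] at hi hk hl
    exact hE.same i k l hi.1 hi.2 hk.1 hk.2 hl.1 hl.2 hne
  have hbd : ∀ i ∈ Finset.Icc 1 I, ∑ k ∈ Finset.Icc 1 (N i), c i k ^ 2 * P.real (A i k) ≤
      2 / (3 * M) * (a : ℝ) ^ 4 * κ ^ 2 * n ^ 2 := by
    intro i hi
    have h1 : ∀ k ∈ Finset.Icc 1 (N i), c i k ^ 2 * P.real (A i k) ≤ a * κ ^ 2 * m i ^ 2 := by
      intro k hk
      have h3 := hpa i hi k hk
      have h4 : 0 < P.real (A i k) := by linarith
      have h5 : c i k ^ 2 * P.real (A i k) = (a / P.real (A i k)) * (a * κ ^ 2 * m i ^ 2) := by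
        rw [hc]
        simp only
        field_simp
      rw [h5]
      have h6 : (a : ℝ) / P.real (A i k) ≤ 1 := (div_le_one h4).2 h3
      calc (a / P.real (A i k)) * (a * κ ^ 2 * m i ^ 2) ≤ 1 * (a * κ ^ 2 * m i ^ 2) :=
            mul_le_mul_of_nonneg_right h6 (by positivity)
        _ = a * κ ^ 2 * m i ^ 2 := one_mul _
    refine le_trans (Finset.sum_le_sum h1) ?_
    rw [Finset.sum_const, Nat.card_Icc, nsmul_eq_mul]
    have h7 : ((N i + 1 - 1 : ℕ) : ℝ) = N i := by simp
    rw [h7]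
    have hi' := Finset.mem_Icc.1 hi
    have h8 : (N i : ℝ) * (3 * M * m i) ≤ n := by exact_mod_cast hS.up i hi'.1 hi'.2
    have h9 : ρ * m i ≤ 2 * n := by
      have := hS.dec 0 i (by omega) hi'.2
      rwa [hS.zero] at this
    have h10 : (m i : ℝ) ≤ 2 * n * a ^ 3 := by
      calc (m i : ℝ) = 1 * m i := (one_mul _).symm
        _ ≤ (ρ * (a : ℝ) ^ 3) * m i := mul_le_mul_of_nonneg_right hS.big (by positivity)
        _ = (ρ * m i) * a ^ 3 := by ring
        _ ≤ 2 * n * a ^ 3 := mul_le_mul_of_nonneg_right h9 (by positivity)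
    have h11 : (N i : ℝ) * m i ≤ n / (3 * M) := by
      rw [le_div_iff₀ (by positivity)]
      linarith
    calc (N i : ℝ) * (a * κ ^ 2 * m i ^ 2) = (N i * m i) * (m i) * ((a : ℝ) * (κ : ℝ) ^ 2) := by ring
      _ ≤ (n / (3 * M)) * (2 * n * (a : ℝ) ^ 3) * ((a : ℝ) * (κ : ℝ) ^ 2) := by
          apply mul_le_mul_of_nonneg_right _ (by positivity)
          exact mul_le_mul h11 h10 (by positivity) (by positivity)
      _ = 2 / (3 * M) * (a : ℝ) ^ 4 * κ ^ 2 * n ^ 2 := by
          field_simp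
  set g : Ω → ℝ := fun ω => (I : ℝ) * ∑ i ∈ Finset.Icc 1 I, D i ω ^ 2 with hg
  have hgi : Integrable g P := by
    apply Integrable.const_mul
    exact integrable_finsetSum _ fun i hi => (hvar i (hind i hi)).1
  have hgint : ∫ ω, g ω ∂P ≤ (I : ℝ) * (I * (2 / (3 * M) * (a : ℝ) ^ 4 * κ ^ 2 * n ^ 2)) := by
    rw [hg, integral_const_mul, integral_finsetSum _ fun i hi => (hvar i (hind i hi)).1]
    apply mul_le_mul_of_nonneg_left _ (by positivity)
    refine le_trans (Finset.sum_le_sum fun i hi => ((hvar i (hind i hi)).2.trans (hbd i hi))) ?_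
    rw [Finset.sum_const, Nat.card_Icc, nsmul_eq_mul]
    have h7 : ((I + 1 - 1 : ℕ) : ℝ) = I := by simp
    rw [h7]
  have hmk := mul_meas_ge_le_integral_of_nonneg (μ := P) (f := g)
    (Filter.Eventually.of_forall fun ω => by
      rw [hg]
      exact mul_nonneg (by positivity) (Finset.sum_nonneg fun i _ => sq_nonneg _)) hgi (T ^ 2)
  have hreal : P.real {ω | T ^ 2 ≤ g ω} ≤ 1 / 4 := by
    have hsm : (a : ℝ) ≤ 1 / (384 * M) := by
      rw [le_div_iff₀ (by positivity)]
      have h1 : (1 : ℝ) ≤ (I : ℝ) ^ 2 := one_le_pow₀ hI'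
      calc (a : ℝ) * (384 * M) = (384 * M) * a * 1 := by ring
        _ ≤ (384 * M) * a * I ^ 2 := mul_le_mul_of_nonneg_left h1 (by positivity)
        _ ≤ 1 := hSa
    have h1 : T ^ 2 * P.real {ω | T ^ 2 ≤ g ω} ≤ T ^ 2 * (96 * M * a ^ 2) := by
      refine (hmk.trans hgint).trans (le_of_eq ?_)
      rw [hT]
      field_simp
      ring
    have h2 : P.real {ω | T ^ 2 ≤ g ω} ≤ 96 * M * a ^ 2 := le_of_mul_le_mul_left h1 (by positivity)
    refine h2.trans ?_
    calc 96 * M * (a : ℝ) ^ 2 = (96 * M * a) * a := by ring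
      _ ≤ (96 * M * (1 / (384 * M))) * 1 := by
          apply mul_le_mul
          · exact mul_le_mul_of_nonneg_left hsm (by positivity)
          · refine hsm.trans ?_
            rw [div_le_one (by positivity)]
            linarith
          · positivity
          · positivity
      _ = 1 / 4 := by
          field_simp
          norm_num
  have hWW : ∀ ω, WW P I N m A a κ ω = ENNReal.ofReal (W ω) := by
    intro ω
    have hnn : ∀ i k, 0 ≤ c i k * (A i k).indicator (fun _ => (1 : ℝ)) ω := by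
      intro i k
      apply mul_nonneg
      · rw [hc]
        exact mul_nonneg (div_nonneg ha'.le measureReal_nonneg) (by positivity)
      · exact Set.indicator_nonneg (fun _ _ => zero_le_one) _
    rw [WW, hW]
    simp only
    rw [ENNReal.ofReal_sum_of_nonneg fun i _ => Finset.sum_nonneg fun k _ => hnn i k]
    refine Finset.sum_congr rfl fun i hi => ?_
    rw [ENNReal.ofReal_sum_of_nonneg fun k _ => hnn i k]
    refine Finset.sum_congr rfl fun k hk => ?_
    have h3 := hpa i hi k hk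
    have h4 : 0 < P.real (A i k) := by linarith
    by_cases hω : ω ∈ A i k
    · rw [if_pos hω, Set.indicator_of_mem hω, mul_one, hc]
      simp only
      rw [ENNReal.ofReal_mul (by positivity), ENNReal.ofReal_div_of_pos h4, measureReal_def,
        ENNReal.ofReal_toReal (measure_ne_top P _), ENNReal.ofReal_mul (by positivity),
        ENNReal.ofReal_coe_nnreal, ENNReal.ofReal_coe_nnreal, ENNReal.ofReal_natCast]
    · rw [if_neg hω, Set.indicator_of_notMem hω, mul_zero, ENNReal.ofReal_zero]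
  have hsub : {ω | WW P I N m A a κ ω < ENNReal.ofReal (I * a * κ * n / (12 * M))} ⊆
      {ω | T ^ 2 ≤ g ω} := by
    intro ω hω
    rw [Set.mem_ofPred_eq, hWW, ENNReal.ofReal_lt_ofReal_iff hTpos] at hω
    rw [Set.mem_ofPred_eq]
    have h1 : (∑ i ∈ Finset.Icc 1 I, D i ω) ^ 2 ≤ g ω := by
      have h2 := sq_sum_le_card_mul_sum_sq (s := Finset.Icc 1 I) (f := fun i => D i ω)
      rw [Nat.card_Icc] at h2
      have h7 : ((I + 1 - 1 : ℕ) : ℝ) = I := by simp
      rw [h7] at h2
      exact h2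
    refine le_trans ?_ h1
    rw [hWD]
    have hω' : W ω < T := hω
    nlinarith
  calc P {ω | WW P I N m A a κ ω < ENNReal.ofReal (I * a * κ * n / (12 * M))}
      ≤ P {ω | T ^ 2 ≤ g ω} := measure_mono hsub
    _ = ENNReal.ofReal (P.real {ω | T ^ 2 ≤ g ω}) := by
        rw [measureReal_def, ENNReal.ofReal_toReal (measure_ne_top P _)]
    _ ≤ ENNReal.ofReal (1 / 4) := ENNReal.ofReal_le_ofReal hreal
    _ = 1 / 4 := by
        rw [ENNReal.ofReal_div_of_pos (by norm_num)]
        simp

end Pool.Agent.H86.LP
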