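import Pool.Agent.H62.LP.T1

set_option autoImplicit false

open MeasureTheory ProbabilityTheory Filter Topology
open scoped ENNReal NNReal
open Pool.Agent.H62.LP

namespace Pool.Agent.H86.LP

theorem pf_SEL : T_SEL := by
  classical
  intro Ω _ C _ E hE
  obtain ⟨e, he⟩ := exists_injective_nat C
  -- the first index
  set P : Ω → C → Prop := fun ω c => ω ∈ E c ∧ ∀ c', e c' < e c → ω ∉ E c' with hP
  have huniq : ∀ ω c c', P ω c → P ω c' → c = c' := by
    intro ω c c' h1 h2
    apply he
    rcases lt_trichotomy (e c) (e c') with h | h | h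
    · exact absurd h1.1 (h2.2 c h)
    · exact h
    · exact absurd h2.1 (h1.2 c' h)
  have hex : ∀ ω, (∃ c, ω ∈ E c) → ∃ c, P ω c := by
    intro ω ⟨c0, hc0⟩
    have h1 : ∃ n, ∃ c, e c = n ∧ ω ∈ E c := ⟨e c0, c0, rfl, hc0⟩
    obtain ⟨c, hc, hcE⟩ := Nat.find_spec h1
    refine ⟨c, hcE, fun c' hc' hE' => ?_⟩
    rw [hc] at hc'
    exact Nat.find_min h1 hc' ⟨c', rfl, hE'⟩
  set D : Ω → Option C := fun ω => if h : ∃ c, P ω c then some h.choose else none with hD
  have hDs : ∀ ω c, D ω = some c ↔ P ω c := by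
    intro ω c
    constructor
    · intro h
      rw [hD] at h
      simp only at h
      split_ifs at h with h1
      rw [Option.some.injEq] at h
      rw [← h]
      exact h1.choose_spec
    · intro h
      have h1 : ∃ c, P ω c := ⟨c, h⟩
      rw [hD]
      simp only
      rw [dif_pos h1, huniq ω _ _ h1.choose_spec h]
  refine ⟨D, ?_, ?_, ?_, ?_⟩
  · intro c
    have h1 : {ω | D ω = some c} = E c ∩ ⋂ c' : C, ⋂ _ : e c' < e c, (E c')ᶜ := by
      ext ω
      simp only [Set.mem_ofPred_eq, hDs, hP, Set.mem_inter_iff, Set.mem_iInter, Set.mem_compl_iff]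
    rw [h1]
    exact (hE c).inter (MeasurableSet.iInter fun c' => MeasurableSet.iInter fun _ => (hE c').compl)
  · intro ω c h
    exact ((hDs ω c).1 h).1
  · intro ω h c hc
    obtain ⟨c', hc'⟩ := hex ω ⟨c, hc⟩
    rw [(hDs ω c').2 hc'] at h
    exact Option.some_ne_none _ h
  · intro ω ω' h
    have h1 : ∀ c, P ω c ↔ P ω' c := by
      intro c
      rw [hP]
      simp only
      rw [h c]
      constructor
      · rintro ⟨h2, h3⟩
        exact ⟨h2, fun c' hc' hE' => h3 c' hc' ((h c').2 hE')⟩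
      · rintro ⟨h2, h3⟩
        exact ⟨h2, fun c' hc' hE' => h3 c' hc' ((h c').1 hE')⟩
    rcases hd : D ω' with _ | c
    · rcases hd2 : D ω with _ | c
      · rfl
      · rw [hDs, h1, ← hDs, hd] at hd2
        exact absurd hd2 (by simp)
    · rw [hDs, ← h1, ← hDs] at hd
      exact hd

end Pool.Agent.H86.LP
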